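import Pool.Agent.H.MP_170125_pr.D

set_option autoImplicit false

namespace Pool.Agent.H1701

open Finset MvPolynomial

abbrev P := MvPolynomial (Fin 3) ℤ

theorem Lc_eq (f : P) {s : Finset (Fin 3 →₀ ℕ)} (h : f.support ⊆ s) :
    Lc f = ∑ m ∈ s, (f.coeff m).natAbs :=
  sum_subset h fun m _ hm => by simp [notMem_support_iff.1 hm]

theorem Lc_add (f g : P) : Lc (f + g) ≤ Lc f + Lc g := by
  classical
  rw [Lc_eq _ support_add, Lc_eq f subset_union_left, Lc_eq g subset_union_right,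
    ← sum_add_distrib]
  exact sum_le_sum fun m _ => by rw [coeff_add]; exact Int.natAbs_add_le _ _

theorem Lc_neg (f : P) : Lc (-f) = Lc f := by simp [Lc]

theorem Lc_zero : Lc 0 = 0 := by simp [Lc]

theorem Lc_mono (m : Fin 3 →₀ ℕ) (a : ℤ) : Lc (monomial m a) = a.natAbs := by
  rw [Lc_eq _ support_monomial_subset]; simp

theorem Lc_sum {ι : Type} (s : Finset ι) (f : ι → P) : Lc (∑ i ∈ s, f i) ≤ ∑ i ∈ s, Lc (f i) :=
  le_sum_of_subadditive Lc Lc_zero.le Lc_add s f

theorem Lc_mul (f g : P) : Lc (f * g) ≤ Lc f * Lc g := by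
  conv_lhs => rw [f.as_sum, g.as_sum, sum_mul_sum]
  refine (Lc_sum _ _).trans ?_
  rw [Lc, Lc, sum_mul_sum]
  refine sum_le_sum fun m _ => (Lc_sum _ _).trans (le_of_eq (sum_congr rfl fun n _ => ?_))
  rw [monomial_mul, Lc_mono, Int.natAbs_mul]

theorem Lc_X (i : Fin 3) : Lc (X i) = 1 := Lc_mono _ 1

theorem Lc_one : Lc 1 = 1 := Lc_mono 0 1

theorem Lc_pos {f : P} (h : f ≠ 0) : 1 ≤ Lc f := by
  obtain ⟨m, hm⟩ := support_nonempty.2 h
  exact le_trans (Int.natAbs_pos.2 (mem_support_iff.1 hm))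
    (single_le_sum (f := fun m => (f.coeff m).natAbs) (fun _ _ => Nat.zero_le _) hm)

theorem Hc_le (f : P) : Hc f ≤ Lc f := Finset.sup_le fun _ hm =>
  single_le_sum (f := fun m => (f.coeff m).natAbs) (fun _ _ => Nat.zero_le _) hm

/-- Kronecker weight -/
def wt (K : ℕ) (m : Fin 3 →₀ ℕ) : ℕ := m 0 + K * (m 1 + K * m 2)

theorem ex_le {f : P} {m : Fin 3 →₀ ℕ} (hm : m ∈ f.support) (i : Fin 3) :
    m i ≤ f.totalDegree := (monomial_le_degreeOf i hm).trans (degreeOf_le_totalDegree f i)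

theorem wt_inj {f : P} {K : ℕ} (h : f.totalDegree < K) {m n : Fin 3 →₀ ℕ} (hm : m ∈ f.support)
    (hn : n ∈ f.support) (e : wt K m = wt K n) : m = n := by
  have key : ∀ a b c d : ℕ, a < K → c < K → a + K * b = c + K * d → a = c ∧ b = d := by
    intro a b c d ha hc e
    have h1 := congrArg (· % K) e
    simp only [Nat.add_mul_mod_self_left, Nat.mod_eq_of_lt ha, Nat.mod_eq_of_lt hc] at h1
    subst h1
    exact ⟨rfl, Nat.eq_of_mul_eq_mul_left (by omega) (Nat.add_left_cancel e)⟩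
  obtain ⟨h0, h1⟩ := key _ _ _ _ ((ex_le hm 0).trans_lt h) ((ex_le hn 0).trans_lt h) e
  obtain ⟨h1, h2⟩ := key _ _ _ _ ((ex_le hm 1).trans_lt h) ((ex_le hn 1).trans_lt h) h1
  ext i
  fin_cases i <;> assumption

theorem wt_le {f : P} {D : ℕ} (h : f.totalDegree ≤ D) (K : ℕ) {m : Fin 3 →₀ ℕ}
    (hm : m ∈ f.support) : wt K m ≤ D * (1 + K + K ^ 2) := by
  have h0 := (ex_le hm 0).trans h
  have h1 := (ex_le hm 1).trans h
  have h2 := (ex_le hm 2).trans h
  calc wt K m ≤ D + K * (D + K * D) := by unfold wt; gcongr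
    _ = _ := by ring

theorem Lc_le {f : P} {D : ℕ} (h : f.totalDegree ≤ D) : Lc f ≤ (D + 1) ^ 3 * Hc f := by
  refine (sum_le_card_nsmul _ _ _ fun m hm =>
    Finset.le_sup (f := fun m => (f.coeff m).natAbs) hm).trans ?_
  rw [smul_eq_mul]
  refine Nat.mul_le_mul_right _ ?_
  rw [← card_range ((D + 1) ^ 3)]
  refine card_le_card_of_injOn (wt (D + 1)) (fun m hm => ?_)
    fun m hm n hn e => wt_inj (by omega) hm hn e
  have := wt_le h (D + 1) hm
  simp only [coe_range, Set.mem_Iio]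
  nlinarith

/-- Kronecker substitution -/
noncomputable def kr (θ : Fin 3 → ℂ) (K : ℕ) : P →ₐ[ℤ] Polynomial ℂ :=
  aeval fun i => Polynomial.monomial (K ^ (i : ℕ)) (θ i)

theorem kr_coeff (θ : Fin 3 → ℂ) (K : ℕ) (f : P) (n : ℕ) : (kr θ K f).coeff n =
    ∑ m ∈ f.support, if wt K m = n then ((f.coeff m : ℤ) : ℂ) * ∏ i, θ i ^ m i else 0 := by
  conv_lhs => rw [f.as_sum, map_sum, Polynomial.finsetSum_coeff]
  refine sum_congr rfl fun m _ => ?_
  rw [kr, aeval_monomial, Finsupp.prod_fintype _ _ (by simp)]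
  simp only [Fin.prod_univ_three, Polynomial.monomial_pow, Polynomial.monomial_mul_monomial,
    eq_intCast, ← Polynomial.C_eq_intCast, Polynomial.C_mul_monomial,
    Polynomial.coeff_monomial]
  congr 2
  simp [wt]
  ring

theorem kr_eval (θ : Fin 3 → ℂ) (K : ℕ) (f : P) (t : ℂ) :
    (kr θ K f).eval t = aeval (fun i : Fin 3 => θ i * t ^ K ^ (i : ℕ)) f := by
  have : ((Polynomial.aeval t).restrictScalars ℤ).comp (kr θ K) =
      aeval (fun i : Fin 3 => θ i * t ^ K ^ (i : ℕ)) := by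
    ext i
    simp [kr]
  rw [← this]
  simp

theorem kr_deg (θ : Fin 3 → ℂ) (K : ℕ) {f : P} {D : ℕ} (h : f.totalDegree ≤ D) :
    (kr θ K f).natDegree ≤ D * (1 + K + K ^ 2) := by
  rw [Polynomial.natDegree_le_iff_coeff_eq_zero]
  intro n hn
  rw [kr_coeff]
  exact sum_eq_zero fun m hm => if_neg ((wt_le h K hm).trans_lt hn).ne

theorem kr_at {θ : Fin 3 → ℂ} (hθ : ∀ i, ‖θ i‖ = 1) {K : ℕ} {f : P} (h : f.totalDegree < K)
    {m : Fin 3 →₀ ℕ} (hm : m ∈ f.support) :
    ‖(kr θ K f).coeff (wt K m)‖ = (f.coeff m).natAbs := by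
  rw [kr_coeff, sum_eq_single_of_mem m hm fun n hn e => if_neg fun e' => e (wt_inj h hn hm e')]
  simp [hθ]

/-- truncated coefficient norm -/
noncomputable def l1 (N : ℕ) (p : Polynomial ℂ) : ℝ := ∑ i ∈ range N, ‖p.coeff i‖

theorem kr_l1 {θ : Fin 3 → ℂ} (hθ : ∀ i, ‖θ i‖ = 1) (K N : ℕ) (f : P) :
    l1 N (kr θ K f) ≤ Lc f := by
  simp only [l1, kr_coeff, Lc]
  refine (sum_le_sum fun n _ => norm_sum_le _ _).trans ?_
  rw [sum_comm]
  push_cast
  refine sum_le_sum fun m _ => ?_
  simp only [apply_ite norm, norm_zero, sum_ite_eq]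
  split_ifs
  · simp [hθ]
  · positivity

theorem div1 (α : ℂ) (p : Polynomial ℂ) {N : ℕ} (h : p.natDegree + 1 < N) :
    l1 N p ≤ N * l1 N ((Polynomial.X - Polynomial.C α) * p) := by
  set g := (Polynomial.X - Polynomial.C α) * p with hg
  have g0 : g.coeff 0 = -α * p.coeff 0 := by simp [hg, sub_mul]
  have g1 : ∀ k, g.coeff (k + 1) = p.coeff k - α * p.coeff (k + 1) := fun k => by
    simp [hg, sub_mul, Polynomial.coeff_X_mul]
  have key : ∀ k < N, ‖p.coeff k‖ ≤ l1 N g := by
    rcases le_total 1 ‖α‖ with ha | ha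
    · have : ∀ k, ‖p.coeff k‖ ≤ l1 (k + 1) g := by
        intro k
        induction k with
        | zero =>
          simp only [l1, zero_add, range_one, sum_singleton, g0, norm_mul, norm_neg]
          nlinarith [norm_nonneg (p.coeff 0)]
        | succ k ih =>
          have h1 := norm_sub_le (p.coeff k) (g.coeff (k + 1))
          rw [g1, sub_sub_cancel, norm_mul, ← g1] at h1
          rw [l1, sum_range_succ]
          unfold l1 at ih
          nlinarith [norm_nonneg (p.coeff (k + 1))]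
      exact fun k hk => (this k).trans (sum_le_sum_of_subset_of_nonneg (range_mono hk)
        fun _ _ _ => norm_nonneg _)
    · have : ∀ j k, k + j + 1 = N → ‖p.coeff k‖ ≤ ∑ i ∈ Ico (k + 1) N, ‖g.coeff i‖ := by
        intro j
        induction j with
        | zero =>
          intro k hk
          rw [Polynomial.coeff_eq_zero_of_natDegree_lt (by omega), norm_zero]
          positivity
        | succ j ih =>
          intro k hk
          have h0 := ih (k + 1) (by omega)
          have h1 := norm_add_le (g.coeff (k + 1)) (α * p.coeff (k + 1))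
          rw [g1, sub_add_cancel, norm_mul, ← g1] at h1
          rw [sum_eq_sum_Ico_succ_bot (by omega)]
          nlinarith [norm_nonneg (p.coeff (k + 1))]
      exact fun k hk => (this (N - k - 1) k (by omega)).trans (sum_le_sum_of_subset_of_nonneg
        (fun i hi => mem_range.2 (mem_Ico.1 hi).2) fun _ _ _ => norm_nonneg _)
  calc l1 N p ≤ ∑ _i ∈ range N, l1 N g := sum_le_sum fun k hk => key k (mem_range.1 hk)
    _ = _ := by simp

theorem div2 {N : ℕ} : ∀ (d : ℕ) (q p : Polynomial ℂ), q.natDegree = d → 1 ≤ ‖q.leadingCoeff‖ →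
    p.natDegree + d < N → l1 N p ≤ N ^ d * l1 N (q * p) := by
  intro d
  induction d with
  | zero =>
    intro q p hq h1 _
    rw [Polynomial.eq_C_of_natDegree_eq_zero hq, Polynomial.leadingCoeff_C] at h1
    rw [Polynomial.eq_C_of_natDegree_eq_zero hq, pow_zero, one_mul]
    exact sum_le_sum fun i _ => by
      rw [Polynomial.coeff_C_mul, norm_mul]; nlinarith [norm_nonneg (p.coeff i)]
  | succ d ih =>
    intro q p hq h1 h2
    obtain ⟨α, hα⟩ := Complex.exists_root (f := q)
      (Polynomial.natDegree_pos_iff_degree_pos.1 (by omega))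
    obtain ⟨r, rfl⟩ := Polynomial.dvd_iff_isRoot.2 hα
    have hr : r ≠ 0 := by rintro rfl; simp at hq
    rw [(Polynomial.monic_X_sub_C α).natDegree_mul' hr, Polynomial.natDegree_X_sub_C] at hq
    rw [Polynomial.leadingCoeff_monic_mul (Polynomial.monic_X_sub_C α)] at h1
    have h3 := ih r ((Polynomial.X - Polynomial.C α) * p) (by omega) h1 (by
      have := Polynomial.natDegree_mul_le (p := Polynomial.X - Polynomial.C α) (q := p)
      rw [Polynomial.natDegree_X_sub_C] at this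
      omega)
    refine (div1 α p (by omega)).trans ?_
    rw [pow_succ', mul_assoc, mul_comm _ r, mul_assoc]
    exact mul_le_mul_of_nonneg_left h3 (by positivity)

/-- loss in dividing by a polynomial of degree `d` -/
def loss (d D : ℕ) : ℕ :=
  (D + 1) ^ 3 * ((D + d) * (1 + (d + 1) + (d + 1) ^ 2) + 1) ^ (d * (1 + (d + 1) + (d + 1) ^ 2))

theorem div3 {q f : P} (hq : q ≠ 0) {d D : ℕ} (hd : q.totalDegree ≤ d) (hD : f.totalDegree ≤ D) :
    Lc f ≤ loss d D * Lc (q * f) := by
  set E := 1 + (d + 1) + (d + 1) ^ 2 with hE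
  set N := (D + d) * E + 1 with hN
  have h1 : ∀ θ : Fin 3 → ℂ, (∀ i, ‖θ i‖ = 1) → ‖aeval θ f‖ ≤ (N : ℝ) ^ (d * E) * Lc (q * f) := by
    intro θ hθ
    have a1 := kr_deg θ (d + 1) hd
    have a2 := kr_deg θ (d + 1) hD
    have a3 : 1 ≤ ‖(kr θ (d + 1) q).leadingCoeff‖ := by
      obtain ⟨m0, hm0⟩ := support_nonempty.2 hq
      have b1 : kr θ (d + 1) q ≠ 0 := fun e => by
        have := kr_at hθ (Nat.lt_succ_of_le hd) hm0
        rw [e, Polynomial.coeff_zero, norm_zero, eq_comm, Nat.cast_eq_zero,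
          Int.natAbs_eq_zero] at this
        exact mem_support_iff.1 hm0 this
      have b2 := Polynomial.leadingCoeff_ne_zero.2 b1
      rw [Polynomial.leadingCoeff, kr_coeff] at b2
      obtain ⟨m, hm, b3⟩ := exists_ne_zero_of_sum_ne_zero b2
      rw [Polynomial.leadingCoeff, ← (ite_ne_right_iff.1 b3).1, kr_at hθ (Nat.lt_succ_of_le hd) hm]
      exact_mod_cast Int.natAbs_pos.2 (mem_support_iff.1 hm)
    have a4 := div2 (N := N) _ _ (kr θ (d + 1) f) rfl a3 (by rw [hN]; nlinarith)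
    have a5 := kr_eval θ (d + 1) f 1
    simp only [one_pow, mul_one] at a5
    rw [← a5, Polynomial.eval_eq_sum_range' (n := N) (by rw [hN]; nlinarith)]
    simp only [one_pow, mul_one]
    refine (norm_sum_le _ _).trans (a4.trans ?_)
    rw [← map_mul]
    exact mul_le_mul (pow_le_pow_right₀ (by exact_mod_cast (by omega : 1 ≤ N)) a1)
      (kr_l1 hθ _ _ _) (sum_nonneg fun _ _ => norm_nonneg _) (by positivity)
  refine (Lc_le hD).trans ?_
  rw [loss, mul_assoc]
  refine Nat.mul_le_mul_left _ (Finset.sup_le fun m hm => ?_)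
  have h2 := kr_at (θ := fun _ => 1) (by simp) (Nat.lt_succ_of_le hD) hm
  set p := kr (fun _ => 1) (D + 1) f with hp
  have h3 : ‖p.coeff (wt (D + 1) m)‖ ^ 2 ≤ ((N : ℝ) ^ (d * E) * Lc (q * f)) ^ 2 := by
    refine le_trans ?_ (p.sum_sq_norm_coeff_eq_circleAverage.trans_le
      (Real.circleAverage_mono_on_of_le_circle ?_ fun t ht => ?_))
    · by_cases h : wt (D + 1) m ∈ p.support
      · exact single_le_sum (f := fun i => ‖p.coeff i‖ ^ 2) (fun _ _ => by positivity) h
      · rw [Polynomial.notMem_support_iff.1 h, norm_zero, zero_pow two_ne_zero]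
        positivity
    · exact ContinuousOn.circleIntegrable' (by fun_prop)
    · rw [hp, kr_eval]
      refine pow_le_pow_left₀ (norm_nonneg _) (h1 _ fun i => ?_) 2
      have : ‖t‖ = 1 := by simpa using ht
      simp [this]
  have h4 := le_of_sq_le_sq h3 (by positivity)
  rw [h2] at h4
  exact_mod_cast h4

end Pool.Agent.H1701
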