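import Pool.Agent.H.MP_170125_pr.A

set_option autoImplicit false

namespace Pool.Agent.H1701

open Finset MvPolynomial Matrix

abbrev R := QuadraticAlgebra P (-1) (X 2)
abbrev M2 := Matrix (Fin 2) (Fin 2) R
abbrev F2 := FreeGroup (Fin 2)
abbrev Lt := Fin 2 × Bool

/-- norm on the quadratic extension -/
noncomputable def nq (e : R) : ℕ := Lc e.re + 2 * Lc e.im

theorem nq_add (a b : R) : nq (a + b) ≤ nq a + nq b := by
  have h1 := Lc_add a.re b.re
  have h2 := Lc_add a.im b.im
  simp only [nq, QuadraticAlgebra.re_add, QuadraticAlgebra.im_add]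
  omega

theorem nq_neg (a : R) : nq (-a) = nq a := by simp [nq, Lc_neg]

theorem nq_mul (a b : R) : nq (a * b) ≤ nq a * nq b := by
  have h1 := Lc_add (a.re * b.re) (-1 * a.im * b.im)
  have h2 := Lc_add (a.re * b.im + a.im * b.re) (X 2 * a.im * b.im)
  have h3 := Lc_add (a.re * b.im) (a.im * b.re)
  have h4 := Lc_mul a.re b.re
  have h5 := Lc_mul a.re b.im
  have h6 := Lc_mul a.im b.re
  have h7 := Lc_mul a.im b.im
  have h8 := Lc_mul (X 2) (a.im * b.im)
  rw [Lc_X, ← mul_assoc] at h8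
  rw [neg_mul, neg_mul, one_mul, Lc_neg] at h1
  simp only [nq, QuadraticAlgebra.re_mul, QuadraticAlgebra.im_mul, neg_mul, one_mul]
  nlinarith

/-- norm on matrices -/
noncomputable def nm (M : M2) : ℕ := nq (M 0 0) + nq (M 0 1) + nq (M 1 0) + nq (M 1 1)

theorem nm_add (A B : M2) : nm (A + B) ≤ nm A + nm B := by
  have h := fun i j => nq_add (A i j) (B i j)
  have := h 0 0; have := h 0 1; have := h 1 0; have := h 1 1
  simp only [nm, Matrix.add_apply]
  omega

theorem nm_neg (A : M2) : nm (-A) = nm A := by simp [nm, nq_neg]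

theorem nm_sub (A B : M2) : nm (A - B) ≤ nm A + nm B := by
  rw [sub_eq_add_neg, ← nm_neg B]; exact nm_add _ _

theorem nm_mul (A B : M2) : nm (A * B) ≤ nm A * nm B := by
  have h : ∀ i j, nq ((A * B) i j) ≤ nq (A i 0) * nq (B 0 j) + nq (A i 1) * nq (B 1 j) :=
    fun i j => by
      rw [mul_apply, Fin.sum_univ_two]
      exact (nq_add _ _).trans (add_le_add (nq_mul _ _) (nq_mul _ _))
  have := h 0 0; have := h 0 1; have := h 1 0; have := h 1 1
  simp only [nm]
  nlinarith [Nat.zero_le (nq (A 0 0) * nq (B 1 0)), Nat.zero_le (nq (A 0 0) * nq (B 1 1)),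
    Nat.zero_le (nq (A 0 1) * nq (B 0 0)), Nat.zero_le (nq (A 0 1) * nq (B 0 1)),
    Nat.zero_le (nq (A 1 0) * nq (B 1 0)), Nat.zero_le (nq (A 1 0) * nq (B 1 1)),
    Nat.zero_le (nq (A 1 1) * nq (B 0 0)), Nat.zero_le (nq (A 1 1) * nq (B 0 1))]

theorem nm_smul (e : R) (A : M2) : nm (e • A) ≤ nq e * nm A := by
  have h := fun i j => nq_mul e (A i j)
  have := h 0 0; have := h 0 1; have := h 1 0; have := h 1 1
  simp only [nm, Matrix.smul_apply, smul_eq_mul]
  nlinarith

theorem nm_one : nm 1 = 2 := by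
  simp [nm, nq, Lc_zero, Lc_one, QuadraticAlgebra.re_one, QuadraticAlgebra.im_one]

theorem nq_trace (A : M2) : nq A.trace ≤ nm A := by
  have := nq_add (A 0 0) (A 1 1)
  rw [trace_fin_two, nm]
  omega

/-- degree bound -/
def Dq (e : R) (D : ℕ) : Prop := e.re.totalDegree ≤ D ∧ e.im.totalDegree ≤ D

theorem Dq.add {a b : R} {D : ℕ} (ha : Dq a D) (hb : Dq b D) : Dq (a + b) D :=
  ⟨(totalDegree_add _ _).trans (max_le ha.1 hb.1), (totalDegree_add _ _).trans (max_le ha.2 hb.2)⟩

theorem Dq.mul {a b : R} {D E : ℕ} (ha : Dq a D) (hb : Dq b E) : Dq (a * b) (D + E + 1) := by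
  obtain ⟨a1, a2⟩ := ha
  obtain ⟨b1, b2⟩ := hb
  have h4 := totalDegree_mul a.re b.re
  have h5 := totalDegree_mul a.re b.im
  have h6 := totalDegree_mul a.im b.re
  have h7 := totalDegree_mul a.im b.im
  have h8 := totalDegree_mul (X 2 : P) (a.im * b.im)
  rw [totalDegree_X, ← mul_assoc] at h8
  refine ⟨(totalDegree_add _ _).trans (max_le (by omega) ?_), (totalDegree_add _ _).trans
    (max_le ((totalDegree_add _ _).trans (max_le (by omega) (by omega))) (by omega))⟩
  rw [neg_mul, neg_mul, one_mul, totalDegree_neg]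
  omega

theorem cm {S : Type} [CommRing S] (A B : SpecialLinearGroup (Fin 2) S) :
    (A * B).1 = A.1 * B.1 := rfl
theorem c1 {S : Type} [CommRing S] : (1 : SpecialLinearGroup (Fin 2) S).1 = 1 := rfl
theorem ci {S : Type} [CommRing S] (A : SpecialLinearGroup (Fin 2) S) :
    (A⁻¹).1 = A.1.adjugate := rfl

/-- generic representation -/
noncomputable def gA : SpecialLinearGroup (Fin 2) R :=
  ⟨!![⟨X 0, 0⟩, -1; 1, 0], by simp [det_fin_two]⟩
noncomputable def gB : SpecialLinearGroup (Fin 2) R :=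
  ⟨!![0, ⟨0, 1⟩; ⟨-X 2, 1⟩, ⟨X 1, 0⟩], by
    rw [det_fin_two_of]
    ext : 1 <;> simp [QuadraticAlgebra.re_one, QuadraticAlgebra.im_one]⟩
noncomputable def rho : F2 →* SpecialLinearGroup (Fin 2) R := FreeGroup.lift ![gA, gB]

/-- norm of a group element -/
noncomputable def ng (g : F2) : ℕ := nm (rho g).1

theorem ng_mul (g h : F2) : ng (g * h) ≤ ng g * ng h := by
  rw [ng, map_mul, cm]; exact nm_mul _ _

theorem ng_one : ng 1 = 2 := by rw [ng, map_one, c1, nm_one]

theorem ng_pos (g : F2) : 1 ≤ ng g := by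
  have := ng_mul g g⁻¹
  rw [mul_inv_cancel, ng_one] at this
  by_contra h
  rw [show ng g = 0 by omega] at this
  omega

theorem mk_cons (a : Lt) (l : List Lt) : FreeGroup.mk (a :: l) = .mk [a] * .mk l := by
  rw [FreeGroup.mul_mk]; rfl

theorem ex_const : ∃ a : ℕ, 2 ≤ a ∧ (∀ g : F2, ng g ≤ 2 * a ^ g.norm) ∧
    ∀ (g : F2) i j, Dq ((rho g).1 i j) (a * g.norm) := by
  obtain ⟨b, hb⟩ := Finite.exists_le fun l : Lt => ng (.mk [l])
  obtain ⟨c, hc⟩ := Finite.exists_le fun x : Lt × Fin 2 × Fin 2 =>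
    max ((rho (.mk [x.1])).1 x.2.1 x.2.2).re.totalDegree
      ((rho (.mk [x.1])).1 x.2.1 x.2.2).im.totalDegree
  have h1 : ∀ l : List Lt, ng (.mk l) ≤ 2 * (b + c + 2) ^ l.length := by
    intro l
    induction l with
    | nil => exact ng_one.le
    | cons a l ih =>
      rw [mk_cons, List.length_cons, pow_succ]
      refine (ng_mul _ _).trans ?_
      have := hb a
      calc _ ≤ (b + c + 2) * (2 * (b + c + 2) ^ l.length) := Nat.mul_le_mul (by omega) ih
        _ = _ := by ring
  have h2 : ∀ (l : List Lt) i j, Dq ((rho (.mk l)).1 i j) ((b + c + 2) * l.length) := by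
    intro l
    induction l with
    | nil =>
      intro i j
      rw [← FreeGroup.one_eq_mk, map_one, c1, one_apply]
      split_ifs <;> simp [Dq, QuadraticAlgebra.re_one, QuadraticAlgebra.im_one]
    | cons a l ih =>
      intro i j
      rw [mk_cons, map_mul, cm, mul_apply, Fin.sum_univ_two]
      have h : ∀ k, Dq ((rho (.mk [a])).1 i k * (rho (.mk l)).1 k j)
          ((b + c + 2) * (a :: l).length) := fun k => by
        have := Dq.mul (max_le_iff.1 (hc (a, i, k))) (ih k j)
        rw [List.length_cons]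
        exact ⟨this.1.trans (by nlinarith), this.2.trans (by nlinarith)⟩
      exact (h 0).add (h 1)
  refine ⟨b + c + 2, by omega, fun g => ?_, fun g => ?_⟩
  · have := h1 g.toWord
    rwa [FreeGroup.mk_toWord] at this
  · have := h2 g.toWord
    rwa [FreeGroup.mk_toWord] at this

theorem zero_of_eval {p : P} (h : ∀ v : Fin 3 → ℂ, aeval v p = 0) : p = 0 := by
  apply map_injective (algebraMap ℤ ℂ) (RingHom.injective_int _)
  apply MvPolynomial.funext
  intro v
  rw [eval_map, ← aeval_def, h, map_zero, map_zero]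

theorem trace_rho {w : F2} {f : P} (hf : IsTracePoly w f) : (rho w).1.trace = ⟨f, 0⟩ := by
  have key : ∀ (v : Fin 3 → ℂ) (u : ℂ), u * u = -1 + v 2 * u →
      aeval v ((rho w).1.trace.re - f) + u * aeval v (rho w).1.trace.im = 0 := by
    intro v u hu
    let φ : R →+* ℂ :=
      { toFun := fun e => aeval v e.re + u * aeval v e.im
        map_one' := by simp [QuadraticAlgebra.re_one, QuadraticAlgebra.im_one]
        map_mul' := fun a b => by
          simp
          linear_combination (-(aeval v a.im * aeval v b.im)) * hu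
        map_zero' := by simp
        map_add' := fun a b => by simp; ring }
    have hφ : ∀ e : R, φ e = aeval v e.re + u * aeval v e.im := fun _ => rfl
    have h1 : (SpecialLinearGroup.map φ).comp rho =
        FreeGroup.lift ![SpecialLinearGroup.map φ gA, SpecialLinearGroup.map φ gB] := by
      refine FreeGroup.ext_hom _ _ fun i => ?_
      fin_cases i <;> simp [rho]
    have h2 := hf (SpecialLinearGroup.map φ gA) (SpecialLinearGroup.map φ gB)
    rw [← h1, ← map_mul] at h2
    have h3 : ∀ g : SpecialLinearGroup (Fin 2) R,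
        (SpecialLinearGroup.map φ g).1.trace = φ g.1.trace := fun g => by
      simp [trace_fin_two]
    have h4 : ![φ gA.1.trace, φ gB.1.trace, φ (gA * gB).1.trace] = v := by
      rw [cm]
      ext i
      fin_cases i <;> simp [gA, gB, hφ, trace_fin_two, QuadraticAlgebra.re_one,
        QuadraticAlgebra.im_one]
    rw [MonoidHom.comp_apply, h3, h3, h3, h3, h4, hφ] at h2
    rw [map_sub]
    linear_combination h2
  have hr : ∀ z : ℂ, ∃ u : ℂ, u * u = -1 + z * u := fun z => by
    obtain ⟨s, hs⟩ := IsAlgClosed.exists_eq_mul_self (z ^ 2 - 4)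
    exact ⟨(z + s) / 2, by linear_combination (-1 / 4 : ℂ) * hs⟩
  have h1 : (X 2 ^ 2 - 4 : P) * (rho w).1.trace.im = 0 := zero_of_eval fun v => by
    obtain ⟨u, hu⟩ := hr (v 2)
    have a1 := key v u hu
    have a2 := key v (v 2 - u) (by linear_combination hu)
    simp only [map_mul, map_sub, map_pow, aeval_X, map_ofNat] at *
    linear_combination (2 * u - v 2) * (a1 - a2) - 4 * aeval v (rho w).1.trace.im * hu
  have h2 : (rho w).1.trace.im = 0 := (mul_eq_zero.1 h1).resolve_left fun h => by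
    have := congrArg (aeval fun _ => (0 : ℤ)) h
    rw [map_sub, map_pow, aeval_X, map_ofNat, map_zero] at this
    simp at this
  have h3 : (rho w).1.trace.re - f = 0 := zero_of_eval fun v => by
    obtain ⟨u, hu⟩ := hr (v 2)
    simpa [h2] using key v u hu
  exact QuadraticAlgebra.ext (sub_eq_zero.1 h3) h2

theorem Lc_tr {w : F2} {f : P} (hf : IsTracePoly w f) : Lc f = nq (rho w).1.trace := by
  simp [trace_rho hf, nq, Lc_zero]

theorem ident {S : Type} [CommRing S] (W c d : SpecialLinearGroup (Fin 2) S) :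
    (c.1 * d.1 - d.1 * c.1).det = 2 - (c * d * c⁻¹ * d⁻¹).1.trace ∧
    (2 - (c * d * c⁻¹ * d⁻¹).1.trace) • W.1 =
      (W * c).1.trace • ((d⁻¹ * c * d).1 - c.1) + (W * d).1.trace • ((c * d * c⁻¹).1 - d.1) -
      (W.1.trace • ((d⁻¹ * c * d * c⁻¹).1 - 1) + (W * c * d).1.trace • ((c * d).1 - (d * c).1)) := by
  have hc := c.2
  have hd := d.2
  have h1 : (c.1 * d.1 - d.1 * c.1).det = 2 - (c * d * c⁻¹ * d⁻¹).1.trace := by
    simp only [det_fin_two] at hc hd
    simp [det_fin_two, trace_fin_two, mul_apply, adjugate_fin_two]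
    linear_combination (2 * (d.1 0 0 * d.1 1 1 - d.1 0 1 * d.1 1 0)) * hc + 2 * hd
  refine ⟨h1, ?_⟩
  have h2 : (c.1 * d.1 - d.1 * c.1).det • W.1 =
      (W.1 * c.1).trace • (d.1.adjugate * (c.1 * d.1 - d.1 * c.1)) +
      (W.1 * d.1).trace • ((c.1 * d.1 - d.1 * c.1) * c.1.adjugate) -
      (W.1.trace • (d.1.adjugate * (c.1 * d.1 - d.1 * c.1) * c.1.adjugate) +
        (W.1 * c.1 * d.1).trace • (c.1 * d.1 - d.1 * c.1)) := by
    ext i j
    fin_cases i <;> fin_cases j <;>
      simp [det_fin_two, trace_fin_two, mul_apply, adjugate_fin_two, vecMul, dotProduct] <;> ring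
  have e1 : d.1.adjugate * d.1 = 1 := by rw [adjugate_mul, hd, one_smul]
  have e2 : c.1 * c.1.adjugate = 1 := by rw [mul_adjugate, hc, one_smul]
  rw [← h1, h2]
  simp only [cm, ci, mul_sub, sub_mul,
    ← Matrix.mul_assoc, e1, one_mul]
  simp only [Matrix.mul_assoc, e2, mul_one]

end Pool.Agent.H1701
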