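import Pool.Agent.H.MP_170125_pr.B

set_option autoImplicit false

namespace Pool.Agent.H1701

open Finset MvPolynomial Matrix

theorem loss_le (a : ℕ) (ha : 2 ≤ a) : ∃ c : ℕ, 1 ≤ c ∧ ∀ m, 1 ≤ m →
    loss (a * (8 * m)) (a * (m + 1) ^ 5) * (64 * a ^ (10 * m)) ≤ c ^ m ^ 4 := by
  refine ⟨2 ^ (10000 * a * 7 * (2000 * a ^ 3)) * (64 * a ^ 10), Nat.succ_le_of_lt (by positivity),
    fun m hm => ?_⟩
  have h1 : a * (m + 1) ^ 5 ≤ 32 * (a * m) ^ 5 := by
    calc a * (m + 1) ^ 5 ≤ a ^ 5 * (2 * m) ^ 5 :=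
          Nat.mul_le_mul (Nat.le_self_pow (by norm_num) a) (Nat.pow_le_pow_left (by omega) 5)
      _ = _ := by ring
  have e : a * (8 * m) = 8 * (a * m) := by ring
  have ht : 1 ≤ a * m := Nat.mul_pos (by omega) hm
  rw [mul_pow, ← pow_mul, loss, e]
  refine Nat.mul_le_mul ?_ ?_
  · have e2 : 10000 * a * 7 * (2000 * a ^ 3) * m ^ 4 =
      10000 * (a * m) * 7 * (2000 * (a * m) ^ 3) := by ring
    rw [e2]
    generalize a * m = t at *
    generalize a * (m + 1) ^ 5 = D at *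
    have h2 : 1 + (8 * t + 1) + (8 * t + 1) ^ 2 ≤ 243 * t ^ 2 := by nlinarith
    have h3 : t ≤ t ^ 5 := Nat.le_self_pow (by norm_num) t
    have h4 : 1 ≤ t ^ 7 := Nat.one_le_pow _ _ ht
    have h5 : (D + 8 * t) * (1 + (8 * t + 1) + (8 * t + 1) ^ 2) + 1 ≤ 2 ^ (10000 * t * 7) := by
      calc _ ≤ (40 * t ^ 5) * (243 * t ^ 2) + t ^ 7 := by gcongr; omega
        _ = 9721 * t ^ 7 := by ring
        _ ≤ 10000 ^ 7 * t ^ 7 := Nat.mul_le_mul_right _ (by norm_num)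
        _ = (10000 * t) ^ 7 := by ring
        _ ≤ (2 ^ (10000 * t)) ^ 7 := Nat.pow_le_pow_left Nat.lt_two_pow_self.le 7
        _ = _ := by rw [← pow_mul]
    have h6 : D + 1 ≤ 2 ^ (10000 * t * 7) := le_trans (by nlinarith) h5
    have h7 : 1 ≤ t ^ 3 := Nat.one_le_pow _ _ ht
    calc _ ≤ (2 ^ (10000 * t * 7)) ^ 3 *
          (2 ^ (10000 * t * 7)) ^ (8 * t * (1 + (8 * t + 1) + (8 * t + 1) ^ 2)) := by gcongr
      _ = (2 ^ (10000 * t * 7)) ^ (3 + 8 * t * (1 + (8 * t + 1) + (8 * t + 1) ^ 2)) := by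
          rw [pow_add]
      _ ≤ (2 ^ (10000 * t * 7)) ^ (2000 * t ^ 3) :=
          Nat.pow_le_pow_right (by positivity) (by nlinarith [Nat.mul_le_mul_left (8 * t) h2])
      _ = _ := by rw [← pow_mul]
  · calc 64 * a ^ (10 * m) ≤ 64 ^ m * a ^ (10 * m) :=
          Nat.mul_le_mul_right _ (Nat.le_self_pow (by omega) _)
      _ = (64 * a ^ 10) ^ m := by rw [mul_pow, ← pow_mul]
      _ ≤ _ := Nat.pow_le_pow_right (by positivity) (Nat.le_self_pow (by norm_num) m)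

variable {f : F2 → P}

theorem Lc_le_ng (hf : ∀ w, IsTracePoly w (f w)) (g : F2) : Lc (f g) ≤ ng g :=
  (Lc_tr (hf g)).trans_le (nq_trace _)

theorem deg_f (hf : ∀ w, IsTracePoly w (f w)) {a : ℕ}
    (h : ∀ (g : F2) i j, Dq ((rho g).1 i j) (a * g.norm)) (g : F2) :
    (f g).totalDegree ≤ a * g.norm := by
  have := ((h g 0 0).add (h g 1 1)).1
  rwa [← trace_fin_two, trace_rho (hf g)] at this

theorem tr_cyc (g h : F2) : (rho (g * h)).1.trace = (rho (h * g)).1.trace := by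
  rw [map_mul, map_mul, cm, cm, trace_mul_comm]

theorem key (hf : ∀ w, IsTracePoly w (f w)) : ∃ c : ℕ, 1 ≤ c ∧ ∀ m, 1 ≤ m →
    ∀ W p p' q q' : F2, p.norm ≤ m → p'.norm ≤ m → q.norm ≤ m → q'.norm ≤ m →
    W.norm ≤ (m + 1) ^ 5 →
    f (p⁻¹ * p' * (q' * q⁻¹) * (p⁻¹ * p')⁻¹ * (q' * q⁻¹)⁻¹) ≠ 2 → ∀ B, Lc (f (W * p * q)) ≤ B →
    Lc (f (W * p' * q)) ≤ B → Lc (f (W * p * q')) ≤ B → Lc (f (W * p' * q')) ≤ B →
    ng W ≤ c ^ m ^ 4 * B := by
  obtain ⟨a, ha, h1, h2⟩ := ex_const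
  obtain ⟨c0, hc0, hc⟩ := loss_le a ha
  refine ⟨c0, hc0, fun m hm W p p' q q' hp hp' hq hq' hW hne B b1 b2 b3 b4 => ?_⟩
  have nmul : ∀ {g h : F2} {s t : ℕ}, g.norm ≤ s → h.norm ≤ t → (g * h).norm ≤ s + t :=
    fun hg hh => (FreeGroup.norm_mul_le _ _).trans (add_le_add hg hh)
  have ninv : ∀ {g : F2} {s : ℕ}, g.norm ≤ s → g⁻¹.norm ≤ s := fun hg => by
    rwa [FreeGroup.norm_inv_eq]
  have hng : ∀ {g : F2} {s : ℕ} (t : ℕ), g.norm ≤ s → s ≤ t → nm (rho g).1 ≤ 2 * a ^ t :=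
    fun t hg hs => (h1 _).trans (Nat.mul_le_mul_left _
      (Nat.pow_le_pow_right (by omega) (hg.trans hs)))
  have hc' := nmul (ninv hp) hp'
  have hd' := nmul hq' (ninv hq)
  rw [Lc_tr (hf _)] at b1 b2 b3 b4
  have t1 : (rho (W * p * q)).1.trace = (rho (q * W * p)).1.trace := by
    rw [tr_cyc, ← mul_assoc]
  have t2 : (rho (W * p' * q)).1.trace = (rho (q * W * p * (p⁻¹ * p'))).1.trace := by
    rw [tr_cyc]; congr 3; group
  have t3 : (rho (W * p * q')).1.trace = (rho (q * W * p * (q' * q⁻¹))).1.trace := by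
    rw [← mul_assoc, tr_cyc _ q⁻¹]; congr 3; group
  have t4 : (rho (W * p' * q')).1.trace =
      (rho (q * W * p * (p⁻¹ * p') * (q' * q⁻¹))).1.trace := by
    rw [← mul_assoc, tr_cyc _ q⁻¹]; congr 3; group
  rw [t1] at b1
  rw [t2] at b2
  rw [t3] at b3
  rw [t4] at b4
  generalize p⁻¹ * p' = c at *
  generalize q' * q⁻¹ = d at *
  have id := (ident (rho (q * W * p)) (rho c) (rho d)).2
  simp only [← map_mul, ← map_inv] at id
  rw [trace_rho (hf _)] at id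
  set κ : P := 2 - f (c * d * c⁻¹ * d⁻¹) with hκ
  have e : (2 : R) - ⟨f (c * d * c⁻¹ * d⁻¹), 0⟩ = ⟨κ, 0⟩ := by
    ext : 1 <;> simp [hκ, QuadraticAlgebra.re_ofNat, QuadraticAlgebra.im_ofNat]
  rw [e] at id
  have hcm := nmul (nmul (nmul hc' hd') (ninv hc')) (ninv hd')
  have hκd : κ.totalDegree ≤ a * (8 * m) := by
    refine (totalDegree_sub _ _).trans (max_le ?_ ((deg_f hf h2 _).trans ?_))
    · rw [show (2 : P) = C 2 from rfl, totalDegree_C]; omega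
    · exact Nat.mul_le_mul_left _ (by omega)
  have s1 : nm ((⟨κ, 0⟩ : R) • (rho (q * W * p)).1) ≤ B * (16 * a ^ (8 * m)) := by
    have term : ∀ (e : R) (M N : M2), nq e ≤ B → nm M ≤ 2 * a ^ (8 * m) →
        nm N ≤ 2 * a ^ (8 * m) → nm (e • (M - N)) ≤ B * (4 * a ^ (8 * m)) :=
      fun e M N he hM hN => (nm_smul _ _).trans (Nat.mul_le_mul he ((nm_sub _ _).trans (by omega)))
    have u1 := term _ _ _ b2 (hng _ (nmul (nmul (ninv hd') hc') hd') (by omega))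
      (hng _ hc' (by omega))
    have u2 := term _ _ _ b3 (hng _ (nmul (nmul hc' hd') (ninv hc')) (by omega))
      (hng _ hd' (by omega))
    have u3 := term _ _ 1 b1 (hng _ (nmul (nmul (nmul (ninv hd') hc') hd') (ninv hc')) (by omega))
      (by rw [nm_one]; have := Nat.one_le_pow (8 * m) a (by omega); omega)
    have u4 := term _ _ _ b4 (hng _ (nmul hc' hd') (by omega)) (hng _ (nmul hd' hc') (by omega))
    rw [id]
    refine (nm_sub _ _).trans ((add_le_add (nm_add _ _) (nm_add _ _)).trans ?_)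
    linarith
  have s2 : nm ((⟨κ, 0⟩ : R) • (rho W).1) ≤ 64 * a ^ (10 * m) * B := by
    have e2 : (⟨κ, 0⟩ : R) • (rho W).1 =
        (rho q⁻¹).1 * ((⟨κ, 0⟩ : R) • (rho (q * W * p)).1) * (rho p⁻¹).1 := by
      rw [Matrix.mul_smul, Matrix.smul_mul, ← cm, ← cm, ← map_mul, ← map_mul]
      congr 3; group
    rw [e2]
    calc _ ≤ 2 * a ^ m * (B * (16 * a ^ (8 * m))) * (2 * a ^ m) := (nm_mul _ _).trans
          (Nat.mul_le_mul ((nm_mul _ _).trans (Nat.mul_le_mul (hng _ (ninv hq) le_rfl) s1))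
            (hng _ (ninv hp) le_rfl))
      _ = _ := by ring
  have hκ0 : κ ≠ 0 := sub_ne_zero.2 hne.symm
  have s3 : ∀ i j, nq ((rho W).1 i j) ≤ loss (a * (8 * m)) (a * (m + 1) ^ 5) *
      nq (((⟨κ, 0⟩ : R) • (rho W).1) i j) := by
    intro i j
    have d1 := div3 hκ0 hκd ((h2 W i j).1.trans (Nat.mul_le_mul_left a hW))
    have d2 := div3 hκ0 hκd ((h2 W i j).2.trans (Nat.mul_le_mul_left a hW))
    simp only [nq, Matrix.smul_apply, smul_eq_mul, QuadraticAlgebra.re_mul,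
      QuadraticAlgebra.im_mul, mul_zero, zero_mul, add_zero]
    nlinarith
  calc ng W ≤ loss (a * (8 * m)) (a * (m + 1) ^ 5) * nm ((⟨κ, 0⟩ : R) • (rho W).1) := by
        have := s3 0 0; have := s3 0 1; have := s3 1 0; have := s3 1 1
        simp only [ng, nm, mul_add]
        omega
    _ ≤ loss (a * (8 * m)) (a * (m + 1) ^ 5) * (64 * a ^ (10 * m) * B) :=
        Nat.mul_le_mul_left _ s2
    _ ≤ _ := by rw [← mul_assoc]; exact Nat.mul_le_mul_right _ (hc m hm)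

end Pool.Agent.H1701
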