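import Mathlib

set_option autoImplicit false

namespace Pool.Agent.H1701

open Finset Filter Topology MeasureTheory

/-- `f` is the Fricke trace polynomial of the word `w` -/
def IsTracePoly (w : FreeGroup (Fin 2)) (f : MvPolynomial (Fin 3) ℤ) : Prop :=
  ∀ A B : Matrix.SpecialLinearGroup (Fin 2) ℂ, Matrix.trace (FreeGroup.lift ![A, B] w).1 =
    MvPolynomial.aeval ![Matrix.trace A.1, Matrix.trace B.1, Matrix.trace (A * B).1] f

/-- largest absolute value of a coefficient -/
def Hc (f : MvPolynomial (Fin 3) ℤ) : ℕ := f.support.sup fun m => (f.coeff m).natAbs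

/-- sum of the absolute values of the coefficients -/
def Lc (f : MvPolynomial (Fin 3) ℤ) : ℕ := ∑ m ∈ f.support, (f.coeff m).natAbs

/-- the first `n` letters of an infinite word; `(i, true)` is a generator, `(i, false)` its inverse -/
def pre (n : ℕ) (ω : ℕ → Fin 2 × Bool) : List (Fin 2 × Bool) := List.ofFn fun i : Fin n => ω i

/-- probability that the infinite word starts with `l` -/
noncomputable def cyl (μ : Measure (ℕ → Fin 2 × Bool)) (l : List (Fin 2 × Bool)) : ℝ :=
  μ.real {ω | pre l.length ω = l}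

/-- `(1/n) log H(W_n)` and `(1/n) log L(W_n)` converge to one constant, almost surely and in
probability -/
def Conv (f : FreeGroup (Fin 2) → MvPolynomial (Fin 3) ℤ) (μ : Measure (ℕ → Fin 2 × Bool)) :
    Prop :=
  ∃ c : ℝ,
    (∀ᵐ ω ∂μ, Tendsto (fun n : ℕ => Real.log (Hc (f (.mk (pre n ω)))) / n) atTop (𝓝 c)) ∧
    (∀ᵐ ω ∂μ, Tendsto (fun n : ℕ => Real.log (Lc (f (.mk (pre n ω)))) / n) atTop (𝓝 c)) ∧
    TendstoInMeasure μ (fun (n : ℕ) ω => Real.log (Hc (f (.mk (pre n ω)))) / n) atTop
      (fun _ => c) ∧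
    TendstoInMeasure μ (fun (n : ℕ) ω => Real.log (Lc (f (.mk (pre n ω)))) / n) atTop
      (fun _ => c)

end Pool.Agent.H1701
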