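import Pool.Agent.H.MP_170125_pr.C

set_option autoImplicit false

namespace Pool.Agent.H1701

open Finset Matrix Complex

abbrev V := Fin 2 → ℂ

/-- a Schottky type representation -/
noncomputable def sA : SpecialLinearGroup (Fin 2) ℂ := ⟨!![1, 4; 0, 1], by simp [det_fin_two]⟩
noncomputable def sB : SpecialLinearGroup (Fin 2) ℂ := ⟨!![1, 0; 4, 1], by simp [det_fin_two]⟩
noncomputable def sg : F2 →* SpecialLinearGroup (Fin 2) ℂ := FreeGroup.lift ![sA, sB]
noncomputable def act (g : F2) (v : V) : V := (sg g).1 *ᵥ v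

theorem act_mul (g h : F2) (v : V) : act (g * h) v = act g (act h v) := by
  simp only [act, map_mul, cm, mulVec_mulVec]

theorem act_one (v : V) : act 1 v = v := by simp only [act, map_one, c1, one_mulVec]

theorem act_smul (g : F2) (t : ℂ) (v : V) : act g (t • v) = t • act g v := mulVec_smul _ _ _

theorem act_ne (g : F2) {v : V} (h : v ≠ 0) : act g v ≠ 0 := fun e => h (by
  rw [← act_one v, ← inv_mul_cancel g, act_mul, e, act, mulVec_zero])

/-- proportional vectors -/
def par (x y : V) : Prop := ∃ t : ℂ, t ≠ 0 ∧ x = t • y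

theorem par.symm {x y : V} (h : par x y) : par y x := by
  obtain ⟨t, ht, rfl⟩ := h
  exact ⟨t⁻¹, inv_ne_zero ht, by rw [smul_smul, inv_mul_cancel₀ ht, one_smul]⟩

theorem par.trans {x y z : V} (h : par x y) (h' : par y z) : par x z := by
  obtain ⟨t, ht, rfl⟩ := h
  obtain ⟨s, hs, rfl⟩ := h'
  exact ⟨t * s, mul_ne_zero ht hs, smul_smul _ _ _⟩

theorem par.act {x y : V} (h : par x y) (g : F2) : par (act g x) (act g y) := by
  obtain ⟨t, ht, rfl⟩ := h
  exact ⟨t, ht, act_smul _ _ _⟩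

theorem par_of {x y : V} (hx : x ≠ 0) (hy : y ≠ 0) (h : y 0 * x 1 - y 1 * x 0 = 0) : par x y := by
  have key : ∀ t : ℂ, x = t • y → par x y := fun t e =>
    ⟨t, by rintro rfl; exact hx (by simpa using e), e⟩
  by_cases h0 : y 0 = 0
  · have h1 : y 1 ≠ 0 := fun h1 => hy (by ext i; fin_cases i <;> simpa)
    refine key (x 1 / y 1) ?_
    ext i
    fin_cases i
    · simpa [h0, h1] using h
    · simp [h1]
  · refine key (x 0 / y 0) ?_
    ext i
    fin_cases i
    · simp [h0]
    · simp only [Fin.mk_one, Pi.smul_apply, smul_eq_mul]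
      field_simp
      linear_combination h

/-- ping-pong sets -/
def U (l : Lt) (v : V) : Prop :=
  if l.2 then 2 * normSq (v l.1.rev) ≤ (v 0).re * (v 1).re + (v 0).im * (v 1).im
  else (v 0).re * (v 1).re + (v 0).im * (v 1).im < -2 * normSq (v l.1.rev)

theorem U_par {l : Lt} {x y : V} (h : par x y) (hy : U l y) : U l x := by
  obtain ⟨t, ht, rfl⟩ := h
  have h0 := normSq_pos.2 ht
  have e : (t * y 0).re * (t * y 1).re + (t * y 0).im * (t * y 1).im =
      normSq t * ((y 0).re * (y 1).re + (y 0).im * (y 1).im) := by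
    simp [normSq_apply]; ring
  unfold U at *
  simp only [Pi.smul_apply, smul_eq_mul, e, map_mul]
  split_ifs at * <;> nlinarith

theorem U_disj {l l' : Lt} {v : V} (hv : v ≠ 0) (h : U l v) (h' : U l' v) : l = l' := by
  have h0 := normSq_nonneg (v 0)
  have h1 := normSq_nonneg (v 1)
  have h2 : 0 < normSq (v 0) + normSq (v 1) := by
    by_contra hh
    exact hv (by
      ext i
      fin_cases i <;> exact normSq_eq_zero.1 (by simp only [Fin.zero_eta, Fin.mk_one]; linarith))
  have h3 : ((v 0).re * (v 1).re + (v 0).im * (v 1).im) ^ 2 ≤ normSq (v 0) * normSq (v 1) := by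
    simp only [normSq_apply]
    nlinarith [sq_nonneg ((v 0).re * (v 1).im - (v 0).im * (v 1).re)]
  unfold U at h h'
  generalize (v 0).re * (v 1).re + (v 0).im * (v 1).im = r at *
  obtain ⟨i, b⟩ := l
  obtain ⟨j, c⟩ := l'
  fin_cases i <;> fin_cases j <;> cases b <;> cases c <;> simp at h h' ⊢ <;>
    nlinarith [mul_nonneg h0 h1]

theorem U_pp {l : Lt} {v : V} (h : ¬U (l.1, !l.2) v) : U l (act (.mk [l]) v) := by
  obtain ⟨i, b⟩ := l
  have e : (sg (.mk [(i, b)])).1 = if b then (![sA, sB] i).1 else (![sA, sB] i).1.adjugate := by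
    cases b
    · rw [show FreeGroup.mk [(i, false)] = (FreeGroup.of i)⁻¹ from rfl, map_inv, ci, sg,
        FreeGroup.lift_apply_of]; rfl
    · rw [show FreeGroup.mk [(i, true)] = FreeGroup.of i from rfl, sg,
        FreeGroup.lift_apply_of]; rfl
  rw [act, e]
  fin_cases i <;> cases b <;>
    simp [U, sA, sB, adjugate_fin_two, mulVec, dotProduct, normSq_apply] at h ⊢ <;>
    nlinarith

/-- all tails act into their ping-pong sets -/
def esc (v : V) : List Lt → Prop
  | [] => True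
  | a :: w => U a (act (.mk (a :: w)) v) ∧ esc v w

theorem esc_of {v : V} (hv : v ≠ 0) {s : Lt} (hs : ¬U (s.1, !s.2) v) :
    ∀ w : List Lt, FreeGroup.IsReduced (w ++ [s]) → esc v (w ++ [s])
  | [], _ => ⟨U_pp hs, trivial⟩
  | a :: w, h => by
    have ih := esc_of hv hs w (List.IsChain.tail h)
    refine ⟨?_, ih⟩
    show U a (act (FreeGroup.mk (a :: (w ++ [s]))) v)
    rw [mk_cons, act_mul]
    refine U_pp fun h' => ?_
    obtain ⟨b, u, e⟩ := List.exists_cons_of_ne_nil (show w ++ [s] ≠ [] by simp)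
    rw [List.cons_append, e] at h
    rw [e] at ih h'
    have h1 := U_disj (act_ne _ hv) h' ih.1
    have h2 := (List.isChain_cons_cons.1 h).1
    rw [← h1] at h2
    simp at h2

theorem esc_uniq {v : V} (hv : v ≠ 0) : ∀ w w' : List Lt, w.length = w'.length → esc v w →
    esc v w' → par (act (.mk w) v) (act (.mk w') v) → w = w'
  | [], [], _, _, _, _ => rfl
  | a :: w, b :: w', hl, h, h', hp => by
    obtain rfl := U_disj (act_ne _ hv) h.1 (U_par hp h'.1)
    have := hp.act (FreeGroup.mk [a])⁻¹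
    rw [mk_cons a w, mk_cons a w', ← act_mul, ← act_mul, inv_mul_cancel_left,
      inv_mul_cancel_left] at this
    rw [esc_uniq hv w w' (by simpa using hl) h.2 h'.2 this]

theorem cnt (v' : V) : ∀ (m : ℕ) (v : V), v ≠ 0 → ∀ S : Finset (List Lt),
    (∀ w ∈ S, w.length = m ∧ FreeGroup.IsReduced w ∧ par (act (.mk w) v) v') → S.card ≤ m + 1 := by
  intro m
  induction m with
  | zero =>
    intro v _ S hS
    exact card_le_one.2 fun a ha b hb => by
      rw [List.length_eq_zero_iff.1 (hS a ha).1, List.length_eq_zero_iff.1 (hS b hb).1]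
  | succ m ih =>
    intro v hv S hS
    classical
    rw [← card_filter_add_card_filter_not (esc v), add_comm (m + 1)]
    refine add_le_add (card_le_one.2 fun a ha b hb => ?_) ?_
    · obtain ⟨ha, ha'⟩ := mem_filter.1 ha
      obtain ⟨hb, hb'⟩ := mem_filter.1 hb
      exact esc_uniq hv a b ((hS a ha).1.trans (hS b hb).1.symm) ha' hb'
        ((hS a ha).2.2.trans (hS b hb).2.2.symm)
    have h1 : ∀ w ∈ S.filter (fun w => ¬esc v w), ∃ u s, w = u ++ [s] ∧ U (s.1, !s.2) v := by
      intro w hw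
      obtain ⟨hw, hw'⟩ := mem_filter.1 hw
      obtain ⟨a1, a2, -⟩ := hS w hw
      rcases List.eq_nil_or_concat' w with rfl | ⟨u, s, rfl⟩
      · simp at a1
      · exact ⟨u, s, rfl, by_contra fun h => hw' (esc_of hv h u a2)⟩
    rcases (S.filter fun w => ¬esc v w).eq_empty_or_nonempty with h | ⟨w0, h0⟩
    · simp [h]
    obtain ⟨u0, s0, -, hs0⟩ := h1 w0 h0
    have h2 : ∀ w ∈ S.filter (fun w => ¬esc v w), w = w.dropLast ++ [s0] := by
      intro w hw
      obtain ⟨u, s, rfl, hs⟩ := h1 w hw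
      have := U_disj hv hs hs0
      simp only [Prod.mk.injEq, Bool.not_inj_iff] at this
      simp [Prod.ext this.1 this.2]
    rw [← card_image_of_injOn (f := List.dropLast) fun a ha b hb e => by
      rw [h2 a ha, h2 b hb, e]]
    refine ih (act (.mk [s0]) v) (act_ne _ hv) _ fun u hu => ?_
    obtain ⟨w, hw, rfl⟩ := mem_image.1 hu
    obtain ⟨a1, a2, a3⟩ := hS w (mem_filter.1 hw).1
    refine ⟨by simp [a1], List.IsChain.dropLast a2, ?_⟩
    rwa [← act_mul, FreeGroup.mul_mk, ← h2 w hw]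

theorem eig (c : Matrix (Fin 2) (Fin 2) ℂ) : ∃ x y : V, x ≠ 0 ∧ c 1 0 = x 1 * y 1 ∧
    c 1 1 = c 0 0 - (x 0 * y 1 + y 0 * x 1) ∧ c 0 1 = -(x 0 * y 0) := by
  by_cases h : c 1 0 = 0
  · exact ⟨![1, 0], ![-c 0 1, c 0 0 - c 1 1], by simp, by simp [h], by simp, by simp⟩
  · obtain ⟨s, hs⟩ := IsAlgClosed.exists_eq_mul_self ((c 1 1 - c 0 0) ^ 2 + 4 * c 1 0 * c 0 1)
    refine ⟨![(c 0 0 - c 1 1 + s) / (2 * c 1 0), 1], ![(c 0 0 - c 1 1 - s) / 2, c 1 0], by simp,
      by simp, ?_, ?_⟩ <;> simp only [cons_val_zero, cons_val_one, cons_val_fin_one] <;> field_simp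
    · ring
    · linear_combination hs

theorem nondeg {f : F2 → P} (hf : ∀ w, IsTracePoly w (f w)) (p p' : F2) :
    par (act p' ![1, 0]) (act p ![1, 0]) ∨ ∃ x y : V, x ≠ 0 ∧ y ≠ 0 ∧ ∀ q q' : F2,
      f (p⁻¹ * p' * (q' * q⁻¹) * (p⁻¹ * p')⁻¹ * (q' * q⁻¹)⁻¹) = 2 →
        par (act q' (act q⁻¹ x)) x ∨ par (act q' (act q⁻¹ y)) y := by
  obtain ⟨x, y, hx, h1, h2, h3⟩ := eig (sg (p⁻¹ * p')).1
  by_cases hy : y = 0
  · left
    have he : (![1, 0] : V) ≠ 0 := by simp
    have := (par_of (act_ne (p⁻¹ * p') he) he (by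
      simp [act, mulVec, dotProduct, -map_mul, h1, hy])).act p
    rwa [← act_mul, mul_inv_cancel_left] at this
  refine Or.inr ⟨x, y, hx, hy, fun q q' h => ?_⟩
  simp only [← act_mul]
  generalize p⁻¹ * p' = c at *
  generalize q' * q⁻¹ = d at *
  have h4 := hf (c * d * c⁻¹ * d⁻¹) sA sB
  rw [h, map_ofNat] at h4
  have h5 := (ident 1 (sg c) (sg d)).1
  simp only [← map_mul, ← map_inv] at h5
  rw [sg, h4, sub_self, ← sg] at h5
  have h6 : (x 0 * act d x 1 - x 1 * act d x 0) * (y 0 * act d y 1 - y 1 * act d y 0) = 0 := by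
    simp only [det_fin_two, Matrix.sub_apply, mul_apply, Fin.sum_univ_two, h1, h2, h3] at h5
    simp only [act, mulVec, dotProduct, Fin.sum_univ_two]
    linear_combination -h5
  exact (mul_eq_zero.1 h6).imp (par_of (act_ne _ hx) hx) (par_of (act_ne _ hy) hy)

theorem kst {A : Type} (s : Finset A) (ν : A → ℝ) (h0 : ∀ a, 0 ≤ ν a) (h1 : ∑ a ∈ s, ν a = 1)
    (S E : A → A → Prop) [DecidableRel S] [DecidableRel E] {δ : ℝ} (hδ : 0 ≤ δ)
    (hE : ∀ p, ∑ p' ∈ s with E p p', ν p' ≤ δ)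
    (hS : ∀ p ∈ s, ∀ p' ∈ s, ¬E p p' → ∑ q ∈ s with S p q ∧ S p' q, ν q ≤ 2 * δ) :
    ∑ p ∈ s, ∑ q ∈ s, ν p * ν q * (if S p q then 1 else 0) ≤ √(3 * δ) := by
  refine Real.le_sqrt_of_sq_le ?_
  rw [sum_comm]
  have h2 := sum_sq_le_sum_mul_sum_of_sq_le_mul s
    (r := fun q => ∑ p ∈ s, ν p * ν q * (if S p q then 1 else 0)) (f := ν)
    (g := fun q => ν q * (∑ p ∈ s, ν p * (if S p q then 1 else 0)) ^ 2) (fun q _ => h0 q)
    (fun q _ => mul_nonneg (h0 q) (sq_nonneg _)) fun q _ => le_of_eq (by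
      simp only [mul_comm _ (ν q), mul_assoc, ← mul_sum]; ring)
  refine h2.trans ?_
  rw [h1, one_mul]
  calc _ = ∑ p ∈ s, ν p * ∑ p' ∈ s, ν p' * ∑ q ∈ s with S p q ∧ S p' q, ν q := by
        simp only [sq, sum_mul_sum]
        simp only [mul_sum, sum_filter]
        rw [sum_comm]
        refine sum_congr rfl fun p _ => ?_
        rw [sum_comm]
        refine sum_congr rfl fun p' _ => sum_congr rfl fun q _ => ?_
        by_cases a : S p q <;> by_cases b : S p' q <;> simp [a, b]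
        ring
    _ ≤ ∑ p ∈ s, ν p * (3 * δ) := sum_le_sum fun p hp => mul_le_mul_of_nonneg_left (by
        calc _ ≤ ∑ p' ∈ s, ((if E p p' then ν p' else 0) + ν p' * (2 * δ)) :=
              sum_le_sum fun p' hp' => by
                have a1 := h0 p'
                split_ifs with h
                · have a2 : ∑ q ∈ s with S p q ∧ S p' q, ν q ≤ 1 := h1 ▸
                    sum_le_sum_of_subset_of_nonneg (filter_subset _ _) fun _ _ _ => h0 _
                  nlinarith [mul_nonneg a1 hδ]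
                · nlinarith [hS p hp p' hp' h]
          _ ≤ _ := by
              rw [sum_add_distrib, ← sum_filter, ← sum_mul, h1]
              linarith [hE p]) (h0 p)
    _ = _ := by rw [← sum_mul, h1, one_mul]

end Pool.Agent.H1701
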