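import Pool.Agent.H.MP_170125_pr.E
import Pool.Agent.Lib.helper3.King

set_option autoImplicit false

namespace Pool.Agent.H1701

open Finset MeasureTheory Filter Topology

abbrev Om := ℕ → Lt

/-- shift -/
def sh (ω : Om) : Om := fun i => ω (i + 1)

theorem sh_it (n : ℕ) : ∀ (ω : Om) (i : ℕ), sh^[n] ω i = ω (n + i) := by
  induction n with
  | zero => simp
  | succ n ih => intro ω i; rw [Function.iterate_succ_apply, ih, sh]; congr 1; omega

theorem pre_eq (n : ℕ) (ω : Om) : pre n ω = (List.range n).map ω :=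
  List.ext_getElem (by simp [pre]) (by simp [pre])

theorem pre_len (n : ℕ) (ω : Om) : (pre n ω).length = n := by simp [pre]

theorem pre_add (n k : ℕ) (ω : Om) : pre (n + k) ω = pre n ω ++ pre k (sh^[n] ω) := by
  simp only [pre_eq, List.range_add, List.map_append, List.map_map]
  congr 1
  exact List.map_congr_left fun i _ => (sh_it n ω i).symm

/-- words of length `n` -/
def Wd (n : ℕ) : Finset (List Lt) := univ.image (List.ofFn : (Fin n → Lt) → List Lt)

theorem mem_Wd {n : ℕ} {l : List Lt} : l ∈ Wd n ↔ l.length = n := by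
  simp only [Wd, mem_image, mem_univ, true_and]
  exact ⟨by rintro ⟨g, rfl⟩; simp, by rintro rfl; exact ⟨l.get, List.ofFn_get l⟩⟩

theorem sum_Wd (n k : ℕ) (F : List Lt → ℝ) :
    ∑ l ∈ Wd (n + k), F l = ∑ u ∈ Wd n, ∑ v ∈ Wd k, F (u ++ v) := by
  rw [← sum_product']
  refine sum_nbij' (fun l => (l.take n, l.drop n)) (fun x => x.1 ++ x.2) ?_ ?_ ?_ ?_ ?_
  · intro l hl; simp [mem_Wd.1 hl, mem_Wd]
  · intro x hx; simp only [mem_product, mem_Wd] at hx; simp [mem_Wd, hx]
  · intro l _; simp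
  · intro x hx; simp only [mem_product, mem_Wd] at hx; simp [← hx.1]
  · intro l _; simp

theorem sum_Wd1 (F : List Lt → ℝ) : ∑ l ∈ Wd 1, F l = ∑ a, F [a] := by
  refine (sum_nbij (fun a => [a]) (by simp [mem_Wd]) (fun a _ b _ h => by simpa using h)
    (fun l hl => ?_) fun _ _ => rfl).symm
  obtain ⟨a, rfl⟩ := List.length_eq_one_iff.1 (mem_Wd.1 hl)
  exact ⟨a, by simp, rfl⟩

theorem meas {β : Type} [MeasurableSpace β] (n : ℕ) (F : List Lt → β) :
    Measurable fun ω : Om => F (pre n ω) :=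
  (measurable_of_countable fun g : Fin n → Lt => F (List.ofFn g)).comp
    (measurable_pi_lambda _ fun _ => measurable_pi_apply _)

theorem mset (n : ℕ) (Q : List Lt → Prop) : MeasurableSet {ω : Om | Q (pre n ω)} :=
  measurableSet_setOfPred.2 (meas n Q)

variable {μ : Measure Om} [IsProbabilityMeasure μ]

theorem int_eq (n : ℕ) (F : List Lt → ℝ) :
    ∫ ω, F (pre n ω) ∂μ = ∑ l ∈ Wd n, cyl μ l * F l := by
  have e : ∀ ω, F (pre n ω) = ∑ l ∈ Wd n, Set.indicator {ω | pre n ω = l} (fun _ => F l) ω := by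
    intro ω
    simp [Set.indicator, mem_Wd, pre_len]
  simp only [e]
  rw [integral_finsetSum _ fun l _ => (integrable_const _).indicator (mset n (· = l))]
  refine sum_congr rfl fun l hl => ?_
  rw [integral_indicator_const _ (mset n (· = l)), cyl, mem_Wd.1 hl, smul_eq_mul]

theorem real_eq (n : ℕ) (Q : List Lt → Prop) [DecidablePred Q] :
    μ.real {ω | Q (pre n ω)} = ∑ l ∈ Wd n, cyl μ l * if Q l then 1 else 0 := by
  rw [← int_eq, ← integral_indicator_one (mset n Q)]
  simp [Set.indicator]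

theorem cyl_sum (n : ℕ) : ∑ l ∈ Wd n, cyl μ l = 1 := by
  simpa using (int_eq (μ := μ) n fun _ => 1).symm

omit [IsProbabilityMeasure μ] in
theorem cyl_nn (l : List Lt) : 0 ≤ cyl μ l := measureReal_nonneg

theorem msh : Measurable sh := measurable_pi_lambda _ fun _ => measurable_pi_apply _

theorem inv_sh (h : ∀ l, ∑ a, cyl μ (a :: l) = cyl μ l) : MeasurePreserving sh μ μ := by
  refine ⟨msh, ?_⟩
  have := Measure.isProbabilityMeasure_map (μ := μ) msh.aemeasurable
  refine ext_of_generate_finite {s | ∃ n l, s = {ω : Om | pre n ω = l}} ?_ ?_ ?_ (by simp)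
  · refine le_antisymm (iSup_le fun i => Measurable.comap_le ?_)
      (MeasurableSpace.generateFrom_le (by rintro _ ⟨n, l, rfl⟩; exact mset n (· = l)))
    let : MeasurableSpace (List Lt) := ⊤
    have h1 : Measurable[MeasurableSpace.generateFrom {s | ∃ n l, s = {ω : Om | pre n ω = l}}]
        (pre (i + 1)) := @measurable_to_countable' _ _ _ _ (_) _ fun l =>
      MeasurableSpace.measurableSet_generateFrom ⟨i + 1, l, rfl⟩
    have h2 := (measurable_from_top (f := fun l : List Lt => l.getD i default)).comp h1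
    convert h2 using 1
    ext1 ω
    simp only [Function.comp_apply, pre_eq]
    rw [List.getD_eq_getElem _ _ (by simp), List.getElem_map, List.getElem_range]
  · have key : ∀ {n n' : ℕ} {l l' : List Lt} {ω : Om}, n ≤ n' → pre n ω = l → pre n' ω = l' →
        {ω : Om | pre n ω = l} ∩ {ω | pre n' ω = l'} = {ω | pre n' ω = l'} := by
      intro n n' l l' ω hn h1 h2
      obtain ⟨k, rfl⟩ := Nat.exists_eq_add_of_le hn
      refine Set.inter_eq_right.2 fun ω' h3 => ?_
      rw [Set.mem_ofPred_eq, ← h2, pre_add, pre_add] at h3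
      exact (List.append_inj_left h3 (by simp [pre_len])).trans h1
    rintro _ ⟨n, l, rfl⟩ _ ⟨n', l', rfl⟩ ⟨ω, h1, h2⟩
    rcases le_total n n' with hn | hn
    · exact ⟨n', l', key hn h1 h2⟩
    · exact ⟨n, l, by rw [Set.inter_comm]; exact key hn h2 h1⟩
  · rintro _ ⟨n, l, rfl⟩
    rw [Measure.map_apply msh (mset n (· = l)), ← ENNReal.toReal_eq_toReal_iff'
      (measure_ne_top _ _) (measure_ne_top _ _), ← Measure.real, ← Measure.real]
    have e : sh ⁻¹' {ω | pre n ω = l} = {ω | (pre (1 + n) ω).tail = l} := by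
      ext ω
      rw [Set.mem_ofPred_eq, pre_add]
      simp [pre_eq]
    rw [e, real_eq (1 + n) (·.tail = l), real_eq n (· = l), sum_Wd, sum_Wd1, sum_comm]
    exact sum_congr rfl fun v _ => by
      by_cases hv : v = l <;> simp [hv, h]

/-- the properties of the law of the word that are used -/
structure Good (μ : Measure Om) : Prop where
  st : ∀ l, ∑ a, cyl μ (a :: l) = cyl μ l
  red : ∀ l, cyl μ l ≠ 0 → FreeGroup.IsReduced l
  qb : ∃ C ρ : ℝ, 1 ≤ C ∧ 0 < ρ ∧ ρ < 1 ∧ (∀ l, cyl μ l ≤ C * ρ ^ l.length) ∧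
    ∀ u v, cyl μ (u ++ v) ≤ C * (cyl μ u * cyl μ v)
  mix : ∀ ε : ℝ, 0 < ε → ∃ g, ∀ u v, u ≠ [] → v ≠ [] →
    ∑ s ∈ Wd g, cyl μ (u ++ s ++ v) ≤ (1 + ε) * (cyl μ u * cyl μ v)

open Pool.Agent.Lib.helper3.King in
theorem king (h : Good μ) (Y : List Lt → ℝ) {c : ℝ} (h0 : ∀ l, 0 ≤ Y l)
    (h1 : ∀ l, Y l ≤ c * l.length) (h2 : ∀ u v, Y (u ++ v) ≤ Y u + Y v) :
    ∃ L, ∀ᵐ ω ∂μ, Tendsto (fun n : ℕ => Y (pre n ω) / n) atTop (𝓝 L) := by
  have hT := inv_sh h.st
  have hS : Sup sh (fun n ω => -Y (pre n ω)) c := ⟨fun n => meas n fun l => -Y l, fun n ω => by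
    rw [abs_neg, abs_of_nonneg (h0 _)]; simpa [pre_len] using h1 (pre n ω), fun n k ω => by
    rw [pre_add]; linarith [h2 (pre n ω) (pre k (sh^[n] ω))]⟩
  set Λ : Om → ℝ := fun ω => -up (fun n ω => -Y (pre n ω)) ω with hΛ
  set G : ℕ → Om → ℝ := fun n ω => Y (pre n ω) / n with hG
  have mΛ : Measurable Λ := hS.mu.neg
  have mG : ∀ n, Measurable (G n) := fun n => meas n fun l => Y l / n
  have bΛ : ∀ ω, |Λ ω| ≤ c := fun ω => abs_le.2 ⟨by simp only [hΛ]; linarith [hS.lu ω],
    by simp only [hΛ]; linarith [hS.lu ω]⟩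
  have bG : ∀ n ω, |G n ω| ≤ c := fun n ω => abs_le.2 (by
    have := hS.bd ω n
    simp only [neg_div] at this
    constructor <;> simp only [hG] <;> linarith)
  have a1 : ∀ᵐ ω ∂μ, Tendsto (fun n => G n ω) atTop (𝓝 (Λ ω)) := by
    filter_upwards [hS.kingman hT] with ω ⟨L, hL⟩
    have := hL.neg
    simp only [neg_div, neg_neg] at this
    rwa [hΛ, show (fun ω => -up (fun n ω => -Y (pre n ω)) ω) ω = -L from congrArg _ hL.limsup_eq]
  have a2 : Tendsto (fun n => ∫ ω, G n ω ∂μ) atTop (𝓝 (∫ ω, Λ ω ∂μ)) :=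
    tendsto_integral_of_dominated_convergence (fun _ => c) (fun n => (mG n).aestronglyMeasurable)
      (integrable_const _) (fun n => .of_forall (bG n)) a1
  have a3 : Tendsto (fun n => ∫ ω, |G n ω - Λ ω| ∂μ) atTop (𝓝 (∫ _, 0 ∂μ)) :=
    tendsto_integral_of_dominated_convergence (fun _ => c + c)
      (fun n => ((mG n).sub mΛ).abs.aestronglyMeasurable) (integrable_const _)
      (fun n => .of_forall fun ω => by
        rw [Real.norm_eq_abs, abs_abs]
        exact (abs_sub _ _).trans (add_le_add (bG n ω) (bΛ ω)))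
      (a1.mono fun ω hω => by simpa using (hω.sub_const (Λ ω)).abs)
  have iΛ : Integrable Λ μ := Sup.int mΛ bΛ
  have iΛ2 : Integrable (fun ω => Λ ω ^ 2) μ := Sup.int (mΛ.pow_const 2) (B := c ^ 2) fun ω => by
    rw [abs_pow]; exact pow_le_pow_left₀ (abs_nonneg _) (bΛ ω) 2
  have a4 : ∀ ε : ℝ, 0 < ε → ∫ ω, Λ ω ^ 2 ∂μ ≤ (1 + ε) * (∫ ω, Λ ω ∂μ) ^ 2 := by
    intro ε hε
    obtain ⟨g, hg⟩ := h.mix ε hε
    have t := ((a2.pow 2).const_mul (1 + ε)).add (a3.const_mul (2 * c))
    rw [integral_zero, mul_zero, add_zero] at t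
    refine ge_of_tendsto t ((eventually_gt_atTop 0).mono fun n hn => ?_)
    have hk := hT.iterate (n + g)
    have i1 : Integrable (fun ω => |G n ω - Λ ω|) μ := ((Sup.int (mG n) (bG n)).sub iΛ).abs
    have i2 : Integrable (fun ω => G n ω * G n (sh^[n + g] ω)) μ :=
      Sup.int ((mG n).mul ((mG n).comp hk.measurable)) (B := c * c) fun ω => by
        rw [abs_mul]; exact mul_le_mul (bG _ _) (bG _ _) (abs_nonneg _) (hS.c0 ω)
    have b1 : ∫ ω, G n ω * G n (sh^[n + g] ω) ∂μ ≤ (1 + ε) * (∫ ω, G n ω ∂μ) ^ 2 := by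
      have e : ∀ ω, G n ω * G n (sh^[n + g] ω) =
          (fun l : List Lt => Y (l.take n) / n * (Y (l.drop (n + g)) / n)) (pre (n + g + n) ω) := by
        intro ω
        simp only [hG]
        rw [pre_add, List.drop_left' (pre_len _ _), pre_add, List.append_assoc,
          List.take_left' (pre_len _ _)]
      simp only [e]
      rw [int_eq _ fun l => Y (l.take n) / n * (Y (l.drop (n + g)) / n), hG,
        int_eq n fun l => Y l / n, sum_Wd, sum_Wd, sq, sum_mul_sum, mul_sum]
      refine sum_le_sum fun u hu => ?_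
      rw [sum_comm, mul_sum]
      refine sum_le_sum fun v hv => ?_
      have hu' := mem_Wd.1 hu
      have hv' := mem_Wd.1 hv
      rw [sum_congr rfl fun s hs => by
        rw [List.drop_left' (by simp [hu', mem_Wd.1 hs]), List.append_assoc u s v,
          List.take_left' hu', ← List.append_assoc], ← sum_mul]
      have := mul_le_mul_of_nonneg_right
        (hg u v (by rintro rfl; simp at hu'; omega) (by rintro rfl; simp at hv'; omega))
        (show 0 ≤ Y u / n * (Y v / n) by have := h0 u; have := h0 v; positivity)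
      linarith
    have b2 : ∫ ω, |G n (sh^[n + g] ω) - Λ (sh^[n + g] ω)| ∂μ = ∫ ω, |G n ω - Λ ω| ∂μ := by
      rw [← integral_map (f := fun ω => |G n ω - Λ ω|) hk.aemeasurable
        ((mG n).sub mΛ).abs.aestronglyMeasurable, hk.map_eq]
    have i3 := hk.integrable_comp_of_integrable i1
    have b3 := integral_mono_ae iΛ2 (i2.add ((i1.const_mul c).add (i3.const_mul c))) (by
      filter_upwards [hS.inv hT] with ω hω
      have e : Λ (sh^[n + g] ω) = Λ ω := congrArg Neg.neg (hω _)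
      simp only [Pi.add_apply, Function.comp_apply, e]
      have c1 := abs_le.1 ((abs_mul _ _).trans_le (mul_le_mul_of_nonneg_right (bΛ ω)
        (abs_nonneg (G n (sh^[n + g] ω) - Λ ω))))
      have c2 := abs_le.1 ((abs_mul _ _).trans_le (mul_le_mul_of_nonneg_right
        (bG n (sh^[n + g] ω)) (abs_nonneg (G n ω - Λ ω))))
      linarith [c1.1, c2.1])
    rw [integral_add' i2 ((i1.const_mul c).add (i3.const_mul c)),
      integral_add' (i1.const_mul c) (i3.const_mul c), integral_const_mul, integral_const_mul] at b3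
    simp only [Function.comp_apply, b2] at b3
    linarith
  set m := ∫ ω, Λ ω ∂μ with hm
  have a5 : ∫ ω, Λ ω ^ 2 ∂μ ≤ m ^ 2 := le_of_forall_pos_le_add fun ε hε => by
    have := a4 (ε / (m ^ 2 + 1)) (by positivity)
    have h3 : ε / (m ^ 2 + 1) * m ^ 2 ≤ ε := by
      rw [div_mul_eq_mul_div, div_le_iff₀ (by positivity)]; nlinarith
    linarith
  have e : (fun ω => (Λ ω - m) ^ 2) = fun ω => Λ ω ^ 2 - (2 * m * Λ ω - m ^ 2) := by
    ext; ring
  have i4 : Integrable (fun ω => 2 * m * Λ ω - m ^ 2) μ :=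
    (iΛ.const_mul (2 * m)).sub (integrable_const (m ^ 2))
  have a6 := (integral_eq_zero_iff_of_nonneg (μ := μ) (f := fun ω => (Λ ω - m) ^ 2)
    (fun _ => sq_nonneg _) (e ▸ iΛ2.sub i4)).1 (le_antisymm (by
      rw [e, integral_sub iΛ2 i4, integral_sub (iΛ.const_mul _) (integrable_const _),
        integral_const_mul, ← hm]
      simp only [integral_const, probReal_univ, smul_eq_mul]
      linarith) (integral_nonneg fun _ => sq_nonneg _))
  refine ⟨m, ?_⟩
  filter_upwards [a1, a6] with ω b1 b2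
  rwa [sub_eq_zero.1 (pow_eq_zero_iff two_ne_zero |>.1 b2)] at b1

end Pool.Agent.H1701
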