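import Pool.Agent.H.MP_170125_pr.F

set_option autoImplicit false

namespace Pool.Agent.H1701

open Finset MeasureTheory Filter Topology

variable {μ : Measure Om} [IsProbabilityMeasure μ] {f : F2 → P}

theorem bad (hf : ∀ w, IsTracePoly w (f w)) (h : Good μ) : ∃ c : ℕ, 1 ≤ c ∧
    ∀ᵐ ω ∂μ, ∀ᶠ m in atTop, ∀ n ≤ (m + 1) ^ 5,
      ng (.mk (pre n ω)) ≤ c ^ m ^ 4 * Lc (f (.mk (pre (n + m + m) ω))) := by
  classical
  obtain ⟨c, hc, hk⟩ := key hf
  obtain ⟨C, ρ, hC, ρ0, ρ1, hd, hq⟩ := h.qb
  refine ⟨c, hc, ?_⟩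
  have wc : ∀ (m : ℕ) (v v' : V), v ≠ 0 →
      ∑ w ∈ Wd m with par (act (.mk w) v) v', cyl μ w ≤ (m + 1) * (C * ρ ^ m) := by
    intro m v v' hv
    rw [← sum_filter_ne_zero]
    refine (sum_le_card_nsmul _ _ (C * ρ ^ m) fun w hw => ?_).trans ?_
    · rw [← mem_Wd.1 (mem_filter.1 (mem_filter.1 hw).1).1]; exact hd w
    · rw [nsmul_eq_mul]
      refine mul_le_mul_of_nonneg_right ?_ (by positivity)
      exact_mod_cast cnt v' m v hv _ fun w hw => ⟨mem_Wd.1 (mem_filter.1 (mem_filter.1 hw).1).1,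
        h.red w (mem_filter.1 hw).2, (mem_filter.1 (mem_filter.1 hw).1).2⟩
  let B : ℕ → ℕ → Set Om := fun m n =>
    {ω | c ^ m ^ 4 * Lc (f (.mk (pre (n + m + m) ω))) < ng (.mk ((pre (n + m + m) ω).take n))}
  have hB : ∀ m n, 1 ≤ m → n ≤ (m + 1) ^ 5 →
      μ.real (B m n) ≤ C ^ 2 * √(3 * ((m + 1) * (C * ρ ^ m))) := by
    intro m n hm hn
    rw [real_eq _ fun l => c ^ m ^ 4 * Lc (f (.mk l)) < ng (.mk (l.take n)), sum_Wd, sum_Wd]
    refine le_trans (sum_le_sum fun u hu => ?_)
      (((sum_mul _ _ _).symm.trans (congrArg (· * _) (cyl_sum (μ := μ) n))).trans (one_mul _)).le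
    have hu' := mem_Wd.1 hu
    have k := kst (Wd m) (cyl μ) cyl_nn (cyl_sum m)
      (fun p q => c ^ m ^ 4 * Lc (f (.mk u * .mk p * .mk q)) < ng (.mk u))
      (fun p p' => par (act (.mk p') ![1, 0]) (act (.mk p) ![1, 0]))
      (δ := (m + 1) * (C * ρ ^ m)) (by positivity) (fun p => wc m _ _ (by simp)) (by
        intro p hp p' hp' hE
        obtain ⟨x, y, hx, hy, hxy⟩ := (nondeg hf (.mk p) (.mk p')).resolve_left hE
        set s := (Wd m).filter fun q =>
          c ^ m ^ 4 * Lc (f (.mk u * .mk p * .mk q)) < ng (.mk u) ∧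
          c ^ m ^ 4 * Lc (f (.mk u * .mk p' * .mk q)) < ng (.mk u)
        rcases s.eq_empty_or_nonempty with e | ⟨q, hq⟩
        · rw [e, sum_empty]; positivity
        have w1 := wc m _ x (act_ne (FreeGroup.mk q)⁻¹ hx)
        have w2 := wc m _ y (act_ne (FreeGroup.mk q)⁻¹ hy)
        rw [two_mul]
        refine le_trans ?_ (add_le_add w1 w2)
        rw [← sum_union_inter, ← filter_or]
        refine le_trans ?_ (le_add_of_nonneg_right (sum_nonneg fun _ _ => cyl_nn _))
        refine sum_le_sum_of_subset_of_nonneg (fun q' hq' => ?_) fun _ _ _ => cyl_nn _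
        obtain ⟨a1, a2, a3⟩ := mem_filter.1 hq
        obtain ⟨b1, b2, b3⟩ := mem_filter.1 hq'
        refine mem_filter.2 ⟨b1, hxy _ _ (by_contra fun hne => ?_)⟩
        have nl : ∀ {l : List Lt}, l ∈ Wd m → (FreeGroup.mk l).norm ≤ m := fun hl =>
          FreeGroup.norm_mk_le.trans (mem_Wd.1 hl).le
        have := hk m hm (.mk u) _ _ _ _ (nl hp) (nl hp') (nl a1) (nl b1)
          (FreeGroup.norm_mk_le.trans (hu'.trans_le hn)) hne _
          ((le_max_left _ _).trans (le_max_left _ _)) ((le_max_right _ _).trans (le_max_left _ _))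
          ((le_max_left _ _).trans (le_max_right _ _)) ((le_max_right _ _).trans (le_max_right _ _))
        simp only [mul_max] at this
        omega)
    refine le_trans ?_ (mul_le_mul_of_nonneg_left (mul_le_mul_of_nonneg_left k (by positivity))
      (cyl_nn u))
    simp only [mul_sum]
    refine sum_le_sum fun p _ => sum_le_sum fun q _ => ?_
    rw [List.append_assoc u, List.take_left' hu', ← List.append_assoc, FreeGroup.mul_mk,
      FreeGroup.mul_mk, ← mul_assoc, ← mul_assoc]
    refine mul_le_mul_of_nonneg_right ((hq _ _).trans ?_) (by positivity)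
    have := mul_le_mul_of_nonneg_left (mul_le_mul_of_nonneg_right (hq u p) (cyl_nn (μ := μ) q))
      (show 0 ≤ C by linarith)
    linarith
  have hs : Summable fun m : ℕ => 6 * C ^ 3 / √ρ * (((m + 1 : ℕ) : ℝ) ^ 6 * √ρ ^ (m + 1)) := by
    have r1 : ‖√ρ‖ < 1 := by
      rw [Real.norm_eq_abs, abs_of_nonneg (Real.sqrt_nonneg _), Real.sqrt_lt' one_pos]
      linarith
    exact ((summable_nat_add_iff (f := fun n : ℕ => (n : ℝ) ^ 6 * √ρ ^ n) 1).2
      (summable_pow_mul_geometric_of_norm_lt_one 6 r1)).mul_left _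
  have h1 := ae_eventually_notMem (μ := μ)
    (s := fun m => if 1 ≤ m then ⋃ n ∈ range ((m + 1) ^ 5 + 1), B m n else ∅) (by
      refine ne_top_of_le_ne_top hs.tsum_ofReal_ne_top (ENNReal.tsum_le_tsum fun m => ?_)
      split_ifs with hm
      · rw [← ofReal_measureReal (measure_ne_top _ _)]
        refine ENNReal.ofReal_le_ofReal ((measureReal_biUnion_finset_le _ _).trans
          ((sum_le_card_nsmul _ _ _ fun n hn => hB m n hm (by simpa [Nat.lt_succ_iff] using hn)).trans
            ?_))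
        have r0 : 0 < √ρ := Real.sqrt_pos.2 ρ0
        have a1 : √(3 * ((m + 1) * (C * ρ ^ m))) ≤ 3 * (m + 1) * C * √ρ ^ m := by
          refine Real.sqrt_le_iff.2 ⟨by positivity, ?_⟩
          rw [mul_pow, ← pow_mul, mul_comm m 2, pow_mul, Real.sq_sqrt ρ0.le, ← mul_assoc,
            ← mul_assoc]
          refine mul_le_mul_of_nonneg_right ?_ (by positivity)
          have : (1 : ℝ) ≤ 3 * (m + 1) * C := by nlinarith [(Nat.cast_nonneg m : (0 : ℝ) ≤ m)]
          nlinarith
        have a2 : (((m + 1) ^ 5 + 1 : ℕ) : ℝ) ≤ 2 * (m + 1) ^ 5 := by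
          have : 1 ≤ (m + 1) ^ 5 := Nat.one_le_pow _ _ (by omega)
          exact_mod_cast (by omega : (m + 1) ^ 5 + 1 ≤ 2 * (m + 1) ^ 5)
        rw [card_range, nsmul_eq_mul]
        calc _ ≤ 2 * (m + 1) ^ 5 * (C ^ 2 * (3 * (m + 1) * C * √ρ ^ m)) := by gcongr
          _ = _ := by push_cast; field_simp; ring
      · simp)
  filter_upwards [h1] with ω hω
  filter_upwards [hω, eventually_ge_atTop 1] with m a1 a2 n hn
  rw [if_pos a2] at a1
  simp only [Set.mem_iUnion, not_exists, B, Set.mem_ofPred_eq, not_lt] at a1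
  have := a1 n (mem_range.2 (by omega))
  rwa [add_assoc, pre_add n, List.take_left' (pre_len _ _), ← pre_add, ← add_assoc] at this

theorem conv (hf : ∀ w, IsTracePoly w (f w)) (h : Good μ) : Conv f μ := by
  obtain ⟨a, ha, h1, h2⟩ := ex_const
  obtain ⟨c, hc, hb⟩ := bad hf h
  let Y : List Lt → ℝ := fun l => if l = [] then 0 else Real.log (ng (.mk l))
  have p1 : ∀ g, (1 : ℝ) ≤ ng g := fun g => by exact_mod_cast ng_pos g
  have y0 : ∀ l, 0 ≤ Y l := fun l => by
    simp only [Y]; split_ifs; exacts [le_rfl, Real.log_nonneg (p1 _)]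
  have y1 : ∀ l, Y l ≤ Real.log (ng (.mk l)) := fun l => by
    simp only [Y]; split_ifs; exacts [Real.log_nonneg (p1 _), le_rfl]
  have y2 : ∀ l, Y l ≤ Real.log (a ^ 2 : ℕ) * l.length := fun l => by
    simp only [Y]
    split_ifs with hl
    · simp [hl]
    · rw [mul_comm, ← Real.log_pow]
      refine Real.log_le_log (by linarith [p1 (.mk l)]) ?_
      have b1 := List.length_pos_iff.2 hl
      exact_mod_cast calc ng (.mk l) ≤ 2 * a ^ l.length := (h1 _).trans (Nat.mul_le_mul_left _
            (Nat.pow_le_pow_right (by omega) FreeGroup.norm_mk_le))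
        _ ≤ a ^ l.length * a ^ l.length := Nat.mul_le_mul_right _
            (ha.trans (Nat.le_self_pow b1.ne' _))
        _ = _ := by ring
  have y3 : ∀ u v, Y (u ++ v) ≤ Y u + Y v := fun u v => by
    rcases eq_or_ne u [] with rfl | hu
    · simp [Y]
    rcases eq_or_ne v [] with rfl | hv
    · simp [Y]
    refine (y1 _).trans ?_
    simp only [Y, hu, hv, if_false]
    rw [← Real.log_mul (by linarith [p1 (.mk u)]) (by linarith [p1 (.mk v)]), ← FreeGroup.mul_mk]
    exact Real.log_le_log (by linarith [p1 (.mk u * .mk v)]) (by exact_mod_cast ng_mul _ _)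
  obtain ⟨L, hL⟩ := king h Y y0 y2 y3
  have hr : Tendsto (Nat.nthRoot 5) atTop atTop := tendsto_atTop.2 fun m =>
    (eventually_ge_atTop (m ^ 5)).mono fun _ => (Nat.le_nthRoot_iff (by norm_num)).2
  set K := 2 * Real.log (a ^ 2 : ℕ) + Real.log c with hK
  have la : 0 ≤ Real.log (a ^ 2 : ℕ) := Real.log_natCast_nonneg _
  have lc : 0 ≤ Real.log c := Real.log_natCast_nonneg _
  have A1 : ∀ᵐ ω ∂μ, (∀ᶠ n in atTop, 1 ≤ Lc (f (.mk (pre n ω)))) ∧
      Tendsto (fun n : ℕ => Real.log (Lc (f (.mk (pre n ω)))) / n) atTop (𝓝 L) := by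
    filter_upwards [hb, hL] with ω b1 b2
    have b3 : ∀ᶠ n in atTop, 1 ≤ Lc (f (.mk (pre n ω))) ∧
        Y (pre n ω) / n - K / (Nat.nthRoot 5 n : ℕ) ≤ Real.log (Lc (f (.mk (pre n ω)))) / n ∧
        Real.log (Lc (f (.mk (pre n ω)))) / n ≤ Y (pre n ω) / n := by
      filter_upwards [hr.eventually b1, hr.eventually (eventually_ge_atTop 2)] with n c1 c2
      have c3 := (Nat.le_nthRoot_iff (a := Nat.nthRoot 5 n) (b := n) (n := 5) (by norm_num)).1 le_rfl
      have c4 := Nat.lt_pow_nthRoot_add_one (n := 5) (by norm_num) n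
      generalize Nat.nthRoot 5 n = m at *
      have c5 : m * 2 ≤ m ^ 5 := by
        rw [pow_succ' m 4]
        exact Nat.mul_le_mul_left _ (c2.trans (Nat.le_self_pow (by norm_num) _))
      obtain ⟨k, rfl⟩ : ∃ k, n = k + m + m := ⟨n - m - m, by omega⟩
      have c6 := c1 k (by omega)
      have c7 : 1 ≤ Lc (f (.mk (pre (k + m + m) ω))) := by
        by_contra hh
        rw [show Lc (f (.mk (pre (k + m + m) ω))) = 0 by omega] at c6
        have := ng_pos (.mk (pre k ω))
        omega
      have c8 : (1 : ℝ) ≤ Lc (f (.mk (pre (k + m + m) ω))) := by exact_mod_cast c7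
      have n0 : (0 : ℝ) < (k + m + m : ℕ) := by exact_mod_cast (by omega : 0 < k + m + m)
      have m1 : (1 : ℝ) ≤ m := by exact_mod_cast (by omega : 1 ≤ m)
      refine ⟨c7, ?_, div_le_div_of_nonneg_right ?_ n0.le⟩
      · have d1 := Real.log_le_log (by linarith [p1 (.mk (pre k ω))])
          (show (ng (.mk (pre k ω)) : ℝ) ≤ c ^ m ^ 4 * Lc (f (.mk (pre (k + m + m) ω))) by
            exact_mod_cast c6)
        rw [Real.log_mul (by positivity) (by linarith), Real.log_pow] at d1
        have d2 := y3 (pre k ω) (pre (m + m) (sh^[k] ω))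
        have d3 := y2 (pre (m + m) (sh^[k] ω))
        rw [← pre_add, ← add_assoc] at d2
        rw [pre_len] at d3
        have d4 := y1 (pre k ω)
        have d5 : (m : ℝ) ^ 5 ≤ (k + m + m : ℕ) := by exact_mod_cast c3
        have d6 : K * m ^ 4 / (k + m + m : ℕ) ≤ K / m := by
          rw [div_le_div_iff₀ n0 (by linarith), mul_assoc, ← pow_succ]
          exact mul_le_mul_of_nonneg_left d5 (by positivity)
        have d7 : (m : ℝ) ≤ m ^ 4 := le_self_pow₀ m1 (by norm_num)
        refine le_trans (sub_le_sub_left d6 _) ?_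
        rw [← sub_div]
        refine div_le_div_of_nonneg_right ?_ n0.le
        push_cast at d1 d3
        push_cast at la
        rw [hK]
        push_cast
        nlinarith [mul_le_mul_of_nonneg_left d7 la]
      · simp only [Y]
        rw [if_neg (by rw [← List.length_eq_zero_iff, pre_len]; omega)]
        exact Real.log_le_log (by linarith) (by exact_mod_cast Lc_le_ng hf _)
    refine ⟨b3.mono fun _ h => h.1, tendsto_of_tendsto_of_tendsto_of_le_of_le' ?_ b2
      (b3.mono fun _ h => h.2.1) (b3.mono fun _ h => h.2.2)⟩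
    simpa using b2.sub ((tendsto_const_div_atTop_nhds_zero_nat K).comp hr)
  have t0 : Tendsto (fun n : ℕ => 3 * Real.log (a * n + 1) / n) atTop (𝓝 0) := by
    have a0 : (0 : ℝ) < a := by positivity
    have t1 := (Real.tendsto_pow_log_div_mul_add_atTop (1 / a) (-1 / a) 1 (by positivity)).comp
      (tendsto_atTop_add_const_right _ 1
        (tendsto_natCast_atTop_atTop.const_mul_atTop a0))
    have t2 := t1.const_mul 3
    rw [mul_zero] at t2
    refine t2.congr fun n => ?_
    simp only [Function.comp_apply, pow_one]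
    rw [mul_div_assoc]
    congr 2
    field_simp
    ring
  have A2 : ∀ᵐ ω ∂μ,
      Tendsto (fun n : ℕ => Real.log (Hc (f (.mk (pre n ω)))) / n) atTop (𝓝 L) := by
    filter_upwards [A1] with ω ⟨b1, b2⟩
    have b3 : ∀ n, Lc (f (.mk (pre n ω))) ≤ (a * n + 1) ^ 3 * Hc (f (.mk (pre n ω))) := fun n =>
      Lc_le ((deg_f hf h2 _).trans (Nat.mul_le_mul_left _
        (FreeGroup.norm_mk_le.trans (pre_len _ _).le)))
    have b4 : ∀ᶠ n in atTop, (0 : ℝ) < Hc (f (.mk (pre n ω))) := b1.mono fun n hn => by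
      have := b3 n
      exact_mod_cast Nat.pos_of_ne_zero fun e => by rw [e] at this; omega
    refine tendsto_of_tendsto_of_tendsto_of_le_of_le' (by simpa using b2.sub t0) b2 ?_ ?_
    · filter_upwards [b1, b4] with n c1 c2
      rw [← sub_div]
      refine div_le_div_of_nonneg_right ?_ (by positivity)
      have := Real.log_le_log (by exact_mod_cast c1)
        (show (Lc (f (.mk (pre n ω))) : ℝ) ≤ (a * n + 1) ^ 3 * Hc (f (.mk (pre n ω))) by
          exact_mod_cast b3 n)
      rw [Real.log_mul (by positivity) c2.ne', Real.log_pow] at this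
      push_cast at this
      linarith
    · filter_upwards [b4] with n c2
      exact div_le_div_of_nonneg_right (Real.log_le_log c2 (by exact_mod_cast Hc_le _))
        (by positivity)
  have A3 := A1.mono fun _ h => h.2
  exact ⟨L, A2, A3, tendstoInMeasure_of_tendsto_ae (fun n =>
    (meas n fun l => Real.log (Hc (f (.mk l))) / n).aestronglyMeasurable) A2,
    tendstoInMeasure_of_tendsto_ae (fun n =>
    (meas n fun l => Real.log (Lc (f (.mk l))) / n).aestronglyMeasurable) A3⟩

end Pool.Agent.H1701
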