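import Pool.Agent.H.MP_170125_pr.G

set_option autoImplicit false

namespace Pool.Agent.H1701

open Finset MeasureTheory FreeGroup

variable {μ : Measure Om} [IsProbabilityMeasure μ]

omit [IsProbabilityMeasure μ] in
theorem good_pos {w : Lt → ℝ} {ρ : ℝ} (ρ0 : 0 < ρ) (ρ1 : ρ < 1) (h0 : ∀ a, 0 ≤ w a ∧ w a ≤ ρ)
    (h1 : ∑ a, w a = 1) (h2 : ∀ a, w a ≠ 0 → a.2 = true)
    (h : ∀ l, cyl μ l = (l.map w).prod) : Good μ := by
  refine ⟨fun l => by simp [h, ← sum_mul, h1], fun l hl => ?_,
    ⟨1, ρ, le_rfl, ρ0, ρ1, fun l => ?_, fun u v => by simp [h]⟩, fun ε hε => ⟨1, fun u v _ _ => ?_⟩⟩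
  · have : ∀ a ∈ l, a.2 = true := fun a ha => h2 a fun e =>
      hl (by rw [h]; exact List.prod_eq_zero (List.mem_map.2 ⟨a, ha, e⟩))
    exact List.Pairwise.isChain (List.pairwise_of_forall_mem_list fun a ha b hb _ => by
      rw [this a ha, this b hb])
  · induction l with
    | nil => simp [h]
    | cons a l ih =>
      have := cyl_nn (μ := μ) l
      rw [h] at ih this
      rw [h, List.map_cons, List.prod_cons, List.length_cons, pow_succ', one_mul]
      rw [one_mul] at ih
      exact mul_le_mul (h0 a).2 ih this ρ0.le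
  · have := mul_nonneg hε.le (mul_nonneg (cyl_nn (μ := μ) u) (cyl_nn (μ := μ) v))
    have e : ∑ s ∈ Wd 1, cyl μ (u ++ s ++ v) = cyl μ u * cyl μ v := by
      simp [sum_Wd1, h, ← mul_sum, ← sum_mul, h1]
    linarith

open Classical in
/-- indicator of reduced words -/
noncomputable def rd (l : List Lt) : ℝ := if IsReduced l then 1 else 0

theorem rd_cons (a b : Lt) (l : List Lt) :
    rd (a :: b :: l) = (if b = (a.1, !a.2) then 0 else 1) * rd (b :: l) := by
  have : (a.1 = b.1 → a.2 = b.2) ↔ ¬b = (a.1, !a.2) := by revert a b; decide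
  by_cases h : b = (a.1, !a.2) <;> simp [rd, FreeGroup.IsReduced, List.isChain_cons_cons, this, h]

theorem rd_sum (b : Lt) (l : List Lt) : ∑ a, rd (a :: b :: l) = 3 * rd (b :: l) := by
  simp only [rd_cons, ← sum_mul]
  congr 1
  obtain ⟨i, c⟩ := b
  fin_cases i <;> cases c <;> simp [Fintype.sum_prod_type] <;> norm_num

theorem rd_mix (b : Lt) : ∀ g : ℕ, ∑ a, ∑ s ∈ Wd g, rd (a :: (s ++ [b])) = 3 ^ (g + 1) ∧
    ∀ a, |∑ s ∈ Wd g, rd (a :: (s ++ [b])) - 3 ^ (g + 1) / 4| ≤ 1 := by
  intro g
  induction g with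
  | zero =>
    have e : Wd 0 = {[]} := by ext l; simp [mem_Wd]
    have e1 : rd [b] = 1 := by simp [rd]
    simp only [e, sum_singleton, List.nil_append, rd_sum, e1]
    refine ⟨by norm_num, fun a => ?_⟩
    rw [rd_cons, e1]
    split_ifs <;> norm_num [abs_le]
  | succ g ih =>
    simp only [add_comm g 1, sum_Wd, sum_Wd1, List.cons_append,
      List.nil_append]
    constructor
    · rw [sum_comm]
      simp only [fun c : Lt => sum_comm (s := univ) (t := Wd g)
        (f := fun a s => rd (a :: c :: (s ++ [b]))), rd_sum, ← mul_sum, ih.1]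
      ring
    · intro a
      have h1 := abs_le.1 (ih.2 (a.1, !a.2))
      have h2 := ih.1
      have h3 : ∑ c, ∑ s ∈ Wd g, rd (a :: c :: (s ++ [b])) + ∑ s ∈ Wd g,
          rd ((a.1, !a.2) :: (s ++ [b])) = ∑ c, ∑ s ∈ Wd g, rd (c :: (s ++ [b])) := by
        simp only [rd_cons a, ← mul_sum]
        rw [← add_sum_erase _ _ (mem_univ (a.1, !a.2)), ← add_sum_erase _ _ (mem_univ (a.1, !a.2)),
          if_pos rfl, zero_mul, zero_add, add_comm]
        congr 1
        exact sum_congr rfl fun c hc => by rw [if_neg (ne_of_mem_erase hc), one_mul]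
      rw [abs_le, show 1 + g + 1 = g + 1 + 1 by ring, pow_succ _ (g + 1)]
      constructor <;> linarith

theorem good_red (h1 : ∀ l, l ≠ [] → IsReduced l → cyl μ l = 1 / 4 * (1 / 3) ^ (l.length - 1))
    (h2 : ∀ l, ¬IsReduced l → cyl μ l = 0) : Good μ := by
  have h : ∀ l, l ≠ [] → cyl μ l = rd l * (3 / 4 * (1 / 3) ^ l.length) := by
    intro l hl
    unfold rd
    split_ifs with hr
    · obtain ⟨a, u, rfl⟩ := List.exists_cons_of_ne_nil hl
      rw [h1 _ hl hr]
      simp only [List.length_cons, Nat.add_sub_cancel]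
      ring
    · rw [h2 _ hr, zero_mul]
  have h0 : cyl μ [] = 1 := by simp [cyl, pre]
  have r0 : ∀ l, 0 ≤ rd l ∧ rd l ≤ 1 := fun l => by unfold rd; split_ifs <;> norm_num
  refine ⟨fun l => ?_, fun l hl => by_contra fun e => hl (h2 l e),
    ⟨4 / 3, 1 / 3, by norm_num, by norm_num, by norm_num, fun l => ?_, fun u v => ?_⟩,
    fun ε hε => ?_⟩
  · cases l with
    | nil => simp [h, h0, rd]; norm_num
    | cons b l =>
      simp only [h _ (List.cons_ne_nil _ _), List.length_cons, ← sum_mul, rd_sum]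
      ring
  · rcases eq_or_ne l [] with rfl | hl
    · norm_num [h0]
    · rw [h l hl]
      nlinarith [r0 l, show (0 : ℝ) < (1 / 3) ^ l.length by positivity]
  · rcases eq_or_ne u [] with rfl | hu
    · simp only [h0, List.nil_append]; linarith [cyl_nn (μ := μ) v]
    rcases eq_or_ne v [] with rfl | hv
    · simp only [h0, List.append_nil]; linarith [cyl_nn (μ := μ) u]
    have : rd (u ++ v) ≤ rd u * rd v := by
      by_cases hr : IsReduced (u ++ v)
      · simp [rd, hr, show IsReduced u from List.IsChain.left_of_append hr,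
          show IsReduced v from List.IsChain.right_of_append hr]
      · simp only [rd, hr, if_false]; positivity
    rw [h _ (by simp [hu]), h u hu, h v hv, List.length_append, pow_add]
    nlinarith [mul_le_mul_of_nonneg_right this
      (show (0 : ℝ) ≤ (1 / 3) ^ u.length * (1 / 3) ^ v.length by positivity)]
  · obtain ⟨g, hg⟩ := exists_pow_lt_of_lt_one (show 0 < 3 / 4 * ε by positivity)
      (show (1 / 3 : ℝ) < 1 by norm_num)
    refine ⟨g, fun u v hu hv => ?_⟩
    obtain ⟨b, v, rfl⟩ := List.exists_cons_of_ne_nil hv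
    obtain rfl | ⟨u, a, rfl⟩ := List.eq_nil_or_concat' u
    · exact absurd rfl hu
    have a1 : ∀ s ∈ Wd g, cyl μ (u ++ [a] ++ s ++ b :: v) ≤ rd (a :: (s ++ [b])) *
        (4 / 3 * (1 / 3) ^ g * (cyl μ (u ++ [a]) * cyl μ (b :: v))) := by
      intro s hs
      have : rd (u ++ [a] ++ s ++ b :: v) ≤
          rd (a :: (s ++ [b])) * (rd (u ++ [a]) * rd (b :: v)) := by
        by_cases hr : IsReduced (u ++ [a] ++ s ++ b :: v)
        · have b1 : IsReduced (u ++ [a]) := (List.IsChain.left_of_append hr).left_of_append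
          have b2 : IsReduced (b :: v) := List.IsChain.right_of_append hr
          have b3 : IsReduced (a :: (s ++ [b])) := by
            rw [show u ++ [a] ++ s ++ b :: v = u ++ ((a :: (s ++ [b])) ++ v) by simp] at hr
            exact (List.IsChain.right_of_append hr).left_of_append
          simp only [rd, hr, b1, b2, b3, if_true, mul_one, le_refl]
        · simp only [rd, hr, if_false]; positivity
      rw [h _ (by simp), h _ hu, h _ hv, List.length_append, List.length_append, mem_Wd.1 hs,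
        pow_add, pow_add]
      nlinarith [mul_le_mul_of_nonneg_right this (show (0 : ℝ) ≤ (1 / 3) ^ (u ++ [a]).length *
        (1 / 3) ^ g * (1 / 3) ^ (b :: v).length by positivity)]
    refine (sum_le_sum a1).trans ?_
    rw [← sum_mul, ← mul_assoc]
    refine mul_le_mul_of_nonneg_right ?_ (mul_nonneg (cyl_nn _) (cyl_nn _))
    have a2 := mul_le_mul_of_nonneg_right (abs_le.1 ((rd_mix b g).2 a)).2
      (show (0 : ℝ) ≤ (1 / 3) ^ g by positivity)
    have a3 : (3 : ℝ) ^ (g + 1) * (1 / 3) ^ g = 3 := by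
      rw [pow_succ', mul_assoc, ← mul_pow]; norm_num
    nlinarith

end Pool.Agent.H1701
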